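import Mathlib

/-!
Definitions for the problem on finite groups as transitive automorphism groups of quasigroups,
and the reduction of regular representations to rigid orthomorphisms.
-/

namespace MP8306f4

universe u v

/-- `op` is a quasigroup operation on `Q`: every equation `a * x = b` and `y * a = b` has exactly
one solution. -/
structure IsQuasigroup {Q : Type u} (op : Q → Q → Q) : Prop where
  nonempty : Nonempty Q
  left_div : ∀ a b, ∃! x, op a x = b
  right_div : ∀ a b, ∃! y, op y a = b

/-- The automorphism group of the operation `op`, as a subgroup of the permutations of `Q`. -/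
def AutGroup {Q : Type u} (op : Q → Q → Q) : Subgroup (Equiv.Perm Q) where
  carrier := {φ | ∀ x y, φ (op x y) = op (φ x) (φ y)}
  mul_mem' := by
    intro a b ha hb x y
    simp only [Set.mem_ofPred_eq, Equiv.Perm.mul_apply] at *
    rw [hb, ha]
  one_mem' := by
    intro x y
    rfl
  inv_mem' := by
    intro a ha x y
    simp only [Set.mem_ofPred_eq] at *
    rw [Equiv.Perm.inv_eq_iff_eq, ha]
    simp

/-- `G` admits a transitive representation by a quasigroup: there is a quasigroup whose
automorphism group is isomorphic to `G` and acts transitively on it. -/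
def AdmitsTransitive (G : Type u) [Group G] : Prop :=
  ∃ (Q : Type u) (op : Q → Q → Q), IsQuasigroup op ∧ Nonempty (AutGroup op ≃* G) ∧
    ∀ x y : Q, ∃ φ ∈ AutGroup op, φ x = y

/-- `G` admits a regular representation by a quasigroup: there is a quasigroup whose
automorphism group is isomorphic to `G` and acts transitively on it with trivial point
stabilisers. -/
def AdmitsRegular (G : Type u) [Group G] : Prop :=
  ∃ (Q : Type u) (op : Q → Q → Q), IsQuasigroup op ∧ Nonempty (AutGroup op ≃* G) ∧
    (∀ x y : Q, ∃ φ ∈ AutGroup op, φ x = y) ∧ ∀ φ ∈ AutGroup op, ∀ x : Q, φ x = x → φ = 1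

theorem AdmitsRegular.admitsTransitive {G : Type u} [Group G] (h : AdmitsRegular G) :
    AdmitsTransitive G := by
  obtain ⟨Q, op, h1, h2, h3, _⟩ := h
  exact ⟨Q, op, h1, h2, h3⟩

/-- An orthomorphism of `G`. -/
def IsOrth {G : Type u} [Group G] (f : G → G) : Prop :=
  Function.Bijective f ∧ Function.Bijective (fun x => x⁻¹ * f x)

/-- A rigid orthomorphism: no proper subgroup is mapped into itself. -/
def IsRigid {G : Type u} [Group G] (f : G → G) : Prop :=
  IsOrth f ∧ ∀ D : Subgroup G, (∀ x ∈ D, f x ∈ D) → D = ⊤

/-- `G` has a rigid orthomorphism. -/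
def Rigid (G : Type u) [Group G] : Prop := ∃ f : G → G, IsRigid f

theorem admitsRegular_of_rigid {G : Type u} [Group G] (h : Rigid G) : AdmitsRegular G := by
  obtain ⟨f, ⟨hf, hq⟩, hD⟩ := h
  let op : G → G → G := fun x y => x * f (x⁻¹ * y)
  have hleft : ∀ g : G, Equiv.mulLeft g ∈ AutGroup op := by
    intro g x y
    simp only [op, Equiv.coe_mulLeft]
    simp [mul_assoc]
  -- every automorphism is a left translation
  have key : ∀ φ ∈ AutGroup op, ∀ x : G, φ x = φ 1 * x := by
    let D : Subgroup G :=
      { carrier := {g | ∀ φ ∈ AutGroup op, ∀ x : G, φ (x * g) = φ x * g}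
        mul_mem' := by
          intro a b ha hb φ hφ x
          simp only [Set.mem_ofPred_eq] at ha hb
          rw [← mul_assoc, hb φ hφ, ha φ hφ, mul_assoc]
        one_mem' := by
          intro φ hφ x
          simp
        inv_mem' := by
          intro a ha φ hφ x
          simp only [Set.mem_ofPred_eq] at ha
          have := ha φ hφ (x * a⁻¹)
          simp only [inv_mul_cancel_right] at this
          rw [this]
          simp }
    have hDtop : D = ⊤ := by
      apply hD
      intro g hg φ hφ x
      have hg' : ∀ φ ∈ AutGroup op, ∀ x : G, φ (x * g) = φ x * g := hg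
      have h1 : op x (x * g) = x * f g := by simp [op]
      have h2 : op (φ x) (φ x * g) = φ x * f g := by simp [op]
      have h3 : φ (op x (x * g)) = op (φ x) (φ (x * g)) := hφ _ _
      rw [h1, hg' φ hφ x, h2] at h3
      exact h3
    intro φ hφ x
    have hx : x ∈ D := by rw [hDtop]; trivial
    have := hx φ hφ 1
    simpa using this
  refine ⟨G, op, ⟨⟨1⟩, ?_, ?_⟩, ?_, ?_, ?_⟩
  · intro a b
    obtain ⟨z, hz⟩ := hf.2 (a⁻¹ * b)
    refine ⟨a * z, by simp [op, hz], ?_⟩
    intro y hy
    have h1 : f (a⁻¹ * y) = a⁻¹ * b := by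
      simp only [op] at hy
      rw [← hy]; simp
    have h2 : a⁻¹ * y = z := hf.1 (by rw [h1, hz])
    rw [← h2]; simp
  · intro a b
    -- x * f (x⁻¹ a) = b ; z = x⁻¹ a ; a * (z⁻¹ * f z) = b
    obtain ⟨z, hz⟩ := hq.2 (a⁻¹ * b)
    simp only at hz
    refine ⟨a * z⁻¹, ?_, ?_⟩
    · simp only [op]
      have : (a * z⁻¹)⁻¹ * a = z := by group
      rw [this, mul_assoc, hz]
      simp
    · intro y hy
      simp only [op] at hy
      have h1 : (y⁻¹ * a)⁻¹ * f (y⁻¹ * a) = a⁻¹ * b := by
        rw [← hy]; simp [mul_assoc]
      have h2 : y⁻¹ * a = z := hq.1 (by simp only; rw [h1, hz])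
      rw [← h2]; simp
  · refine ⟨MulEquiv.symm
      { toFun := fun g => ⟨Equiv.mulLeft g, hleft g⟩
        invFun := fun φ => φ.1 1
        left_inv := by intro g; simp
        right_inv := by
          rintro ⟨φ, hφ⟩
          apply Subtype.ext
          ext x
          simp only [Equiv.coe_mulLeft]
          exact (key φ hφ x).symm
        map_mul' := by
          intro a b
          apply Subtype.ext
          ext x
          simp [mul_assoc] }⟩
  · intro x y
    exact ⟨Equiv.mulLeft (y * x⁻¹), hleft _, by simp⟩
  · intro φ hφ x hx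
    have h1 : φ 1 = 1 := by
      have := key φ hφ x
      rw [hx] at this
      exact (mul_eq_right.mp this.symm)
    ext y
    rw [key φ hφ y, h1]
    simp

theorem Rigid.congr {G : Type u} {H : Type v} [Group G] [Group H] (e : G ≃* H) (h : Rigid G) :
    Rigid H := by
  obtain ⟨f, ⟨hf, hq⟩, hD⟩ := h
  refine ⟨fun x => e (f (e.symm x)), ⟨?_, ?_⟩, ?_⟩
  · exact e.bijective.comp (hf.comp e.symm.bijective)
  · have : (fun x => x⁻¹ * e (f (e.symm x))) =
        e ∘ (fun x => x⁻¹ * f x) ∘ e.symm := by
      ext x
      simp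
    rw [this]
    exact e.bijective.comp (hq.comp e.symm.bijective)
  · intro D hDinv
    have h1 : D.comap e.toMonoidHom = ⊤ := by
      apply hD
      intro x hx
      have := hDinv (e x) hx
      simpa using this
    rw [eq_top_iff]
    intro x _
    have h2 : e.symm x ∈ D.comap e.toMonoidHom := by rw [h1]; trivial
    simpa using h2

theorem rigid_of_subsingleton (G : Type u) [Group G] [Subsingleton G] : Rigid G := by
  refine ⟨id, ⟨⟨fun x y _ => Subsingleton.elim _ _, fun y => ⟨y, rfl⟩⟩,
    ⟨fun x y _ => Subsingleton.elim _ _, fun y => ⟨y, Subsingleton.elim _ _⟩⟩⟩, ?_⟩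
  intro D _
  exact Subsingleton.elim _ _

/-- On a finite group injectivity suffices. -/
theorem isOrth_of_injective {G : Type u} [Group G] [Finite G] {f : G → G}
    (h1 : Function.Injective f) (h2 : ∀ x y, x⁻¹ * f x = y⁻¹ * f y → x = y) : IsOrth f :=
  ⟨Finite.injective_iff_bijective.mp h1,
    Finite.injective_iff_bijective.mp (fun x y h => h2 x y h)⟩

end MP8306f4
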