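import Pool.Agent.Lib_MP_8306f4_co.Basic

/-!
A finite quasigroup on which a group with cyclic Sylow 2-subgroups acts transitively by
automorphisms has odd order.
-/

namespace MP8306f4

universe u v w

open Finset

theorem sum_zmod (h : ℕ) (hh : 0 < h) : ∀ [NeZero (2 * h)],
    ∑ c : ZMod (2 * h), c = (h : ZMod (2 * h)) := by
  intro _
  have h1 : ∑ c : ZMod (2 * h), c = ∑ i ∈ range (2 * h), ((i : ℕ) : ZMod (2 * h)) := by
    apply Finset.sum_nbij' (fun c : ZMod (2 * h) => c.val) (fun i : ℕ => (i : ZMod (2 * h)))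
    · intro c _
      rw [mem_range]; exact ZMod.val_lt c
    · intro i _; exact mem_univ _
    · intro c _
      simp
    · intro i hi
      rw [mem_range] at hi
      exact ZMod.val_cast_of_lt hi
    · intro c _
      simp
  rw [h1, ← Nat.cast_sum]
  have h2 : (∑ i ∈ range (2 * h), i) = (2 * h) * (h - 1) + h := by
    have h3 := Finset.sum_range_id_mul_two (2 * h)
    obtain ⟨k, rfl⟩ : ∃ k, h = k + 1 := ⟨h - 1, by omega⟩
    have h4 : 2 * (k + 1) - 1 = 2 * k + 1 := by omega
    rw [h4] at h3
    have h5 : k + 1 - 1 = k := by omega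
    rw [h5]
    nlinarith
  rw [h2, Nat.cast_add, Nat.cast_mul, ZMod.natCast_self, zero_mul, zero_add]

/-- The combinatorial core. -/
theorem no_automorphism {Q : Type u} [Finite Q] {op : Q → Q → Q} (hq : IsQuasigroup op)
    (α : Equiv.Perm Q) (hα : α ∈ AutGroup op) (h r : ℕ) (hh : 0 < h) (hr : Odd r)
    (hcard : Nat.card Q = 2 * h * r)
    (hper : ∀ x, 2 * h ∣ Function.minimalPeriod α x) : False := by
  classical
  have := Fintype.ofFinite Q
  have hne : NeZero (2 * h) := ⟨by omega⟩
  -- the labelling
  have hθ : ∃ θ : Q → ZMod (2 * h), ∀ x, θ (α x) = θ x + 1 := by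
    let s := Equiv.Perm.SameCycle.setoid α
    let rep : Q → Q := fun x => (Quotient.mk s x).out
    have hrep : ∀ x, α.SameCycle (rep x) x := fun x => Quotient.mk_out (s := s) x
    have hrepα : ∀ x, rep (α x) = rep x := by
      intro x
      simp only [rep]
      congr 1
      apply Quotient.sound (s := s)
      exact (Equiv.Perm.sameCycle_apply_left).mpr (Equiv.Perm.SameCycle.refl _ _)
    choose i hi using hrep
    refine ⟨fun x => (i x : ZMod (2 * h)), ?_⟩
    intro x
    have h1 : (α ^ (i (α x))) (rep x) = (α ^ (i x + 1)) (rep x) := by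
      have h2 := hi (α x)
      rw [hrepα] at h2
      rw [h2, add_comm, zpow_add, Equiv.Perm.mul_apply, zpow_one, hi x]
    have h2 : (α ^ (i (α x) - (i x + 1))) (rep x) = rep x := by
      rw [sub_eq_neg_add, zpow_add, Equiv.Perm.mul_apply, h1, ← Equiv.Perm.mul_apply, ← zpow_add]
      simp
    have h3 : (Function.minimalPeriod α (rep x) : ℤ) ∣ i (α x) - (i x + 1) := by
      have := (MulAction.zpow_smul_eq_iff_minimalPeriod_dvd (a := α) (b := rep x)
        (n := i (α x) - (i x + 1))).mp h2
      exact this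
    have h4 : ((2 * h : ℕ) : ℤ) ∣ i (α x) - (i x + 1) :=
      dvd_trans (Int.natCast_dvd_natCast.mpr (hper _)) h3
    have h5 := (ZMod.intCast_zmod_eq_zero_iff_dvd (i (α x) - (i x + 1)) (2 * h)).mpr h4
    push_cast at h5
    exact sub_eq_zero.mp h5
  obtain ⟨θ, hθ⟩ := hθ
  have hθpow : ∀ (k : ℕ) (x : Q), θ ((α ^ k) x) = θ x + k := by
    intro k
    induction k with
    | zero => intro x; simp
    | succ k ih =>
      intro x
      rw [pow_succ', Equiv.Perm.mul_apply, hθ, ih]
      push_cast; ring
  -- all fibres have the same size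
  have hfib : ∀ c : ZMod (2 * h), (univ.filter (fun x => θ x = c)).card =
      (univ.filter (fun x => θ x = 0)).card := by
    intro c
    symm
    apply Finset.card_bij (fun x _ => (α ^ c.val) x)
    · intro x hx
      simp only [mem_filter, mem_univ, true_and] at hx ⊢
      rw [hθpow, hx]; simp
    · intro x _ y _ hxy
      exact (α ^ c.val).injective hxy
    · intro y hy
      simp only [mem_filter, mem_univ, true_and] at hy
      refine ⟨((α ^ c.val)⁻¹) y, ?_, by simp⟩
      simp only [mem_filter, mem_univ, true_and]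
      have h1 := hθpow c.val (((α ^ c.val)⁻¹) y)
      have h2 : (α ^ c.val) (((α ^ c.val)⁻¹) y) = y := by simp
      rw [h2, hy] at h1
      have h3 : ((c.val : ℕ) : ZMod (2 * h)) = c := by simp
      rw [h3] at h1
      exact (left_eq_add.mp (by rw [add_comm] at h1; exact h1))
  set n₀ := (univ.filter (fun x => θ x = 0)).card with hn₀
  have hn : Nat.card Q = 2 * h * n₀ := by
    rw [Nat.card_eq_fintype_card, ← Finset.card_univ]
    rw [Finset.card_eq_sum_card_fiberwise (f := θ) (t := univ) (by intro x _; simp)]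
    rw [Finset.sum_congr rfl (fun c _ => hfib c)]
    rw [Finset.sum_const, Finset.card_univ, ZMod.card, smul_eq_mul]
  have hn₀r : n₀ = r := by
    rw [hcard] at hn
    exact (Nat.eq_of_mul_eq_mul_left (by omega) hn).symm
  -- the total sum of the labels
  have htot : ∑ z, θ z = (h : ZMod (2 * h)) := by
    rw [← Finset.sum_fiberwise univ θ (fun z => θ z)]
    have h1 : ∀ c : ZMod (2 * h), ∑ z ∈ univ.filter (fun x => θ x = c), θ z = (n₀ : ZMod (2 * h)) * c := by
      intro c
      rw [Finset.sum_congr rfl (g := fun _ => c) (by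
        intro z hz; simp only [mem_filter, mem_univ, true_and] at hz; exact hz)]
      rw [Finset.sum_const, hfib c, nsmul_eq_mul]
    rw [Finset.sum_congr rfl (fun c _ => h1 c), ← Finset.mul_sum, sum_zmod h hh, hn₀r]
    obtain ⟨k, rfl⟩ := hr
    have h2 : ((2 * k + 1 : ℕ) : ZMod (2 * h)) * (h : ZMod (2 * h)) =
        (k : ZMod (2 * h)) * ((2 * h : ℕ) : ZMod (2 * h)) + (h : ZMod (2 * h)) := by
      push_cast; ring
    rw [h2, ZMod.natCast_self, mul_zero, zero_add]
  -- bijectivity of translations
  have hL : ∀ x, Function.Bijective (op x) := by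
    intro x
    constructor
    · intro a b hab
      exact (hq.left_div x (op x b)).unique hab rfl
    · intro b
      obtain ⟨a, ha, _⟩ := hq.left_div x b
      exact ⟨a, ha⟩
  have hR : ∀ y, Function.Bijective (fun x => op x y) := by
    intro y
    constructor
    · intro a b hab
      exact (hq.right_div y (op b y)).unique hab rfl
    · intro b
      obtain ⟨a, ha, _⟩ := hq.right_div y b
      exact ⟨a, ha⟩
  -- invariance
  have hαop : ∀ x y, α (op x y) = op (α x) (α y) := hα
  have hαpow : ∀ (k : ℕ) (x y : Q), (α ^ k) (op x y) = op ((α ^ k) x) ((α ^ k) y) := by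
    intro k
    induction k with
    | zero => intro x y; simp
    | succ k ih =>
      intro x y
      rw [pow_succ', Equiv.Perm.mul_apply, ih, hαop]; rfl
  let g : Q × Q → ZMod (2 * h) := fun p => θ (op p.1 p.2) - θ p.2
  have hg : ∀ (k : ℕ) (p : Q × Q), g ((α ^ k) p.1, (α ^ k) p.2) = g p := by
    intro k p
    simp only [g]
    rw [← hαpow, hθpow, hθpow]; ring
  -- first evaluation
  have hA : ∑ p ∈ univ.filter (fun p : Q × Q => θ p.1 = 0), g p = 0 := by
    have h1 : univ.filter (fun p : Q × Q => θ p.1 = 0) =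
        (univ.filter (fun x => θ x = 0)) ×ˢ (univ : Finset Q) := by
      ext ⟨x, y⟩; simp
    rw [h1, Finset.sum_product]
    apply Finset.sum_eq_zero
    intro x _
    simp only [g]
    rw [Finset.sum_sub_distrib, sub_eq_zero]
    exact Fintype.sum_bijective (op x) (hL x) _ _ (fun y => rfl)
  -- second evaluation
  have hB : ∑ p ∈ univ.filter (fun p : Q × Q => θ p.2 = 0), g p = (h : ZMod (2 * h)) := by
    have h1 : univ.filter (fun p : Q × Q => θ p.2 = 0) =
        (univ : Finset Q) ×ˢ (univ.filter (fun x => θ x = 0)) := by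
      ext ⟨x, y⟩; simp
    rw [h1, Finset.sum_product_right]
    have h2 : ∀ y ∈ univ.filter (fun x => θ x = 0), ∑ x, g (x, y) = (h : ZMod (2 * h)) := by
      intro y hy
      simp only [mem_filter, mem_univ, true_and] at hy
      simp only [g, hy, sub_zero]
      rw [← htot]
      exact Fintype.sum_bijective (fun x => op x y) (hR y) _ _ (fun x => rfl)
    rw [Finset.sum_congr rfl h2, Finset.sum_const, nsmul_eq_mul, ← hn₀, hn₀r]
    obtain ⟨k, rfl⟩ := hr
    have h3 : ((2 * k + 1 : ℕ) : ZMod (2 * h)) * (h : ZMod (2 * h)) =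
        (k : ZMod (2 * h)) * ((2 * h : ℕ) : ZMod (2 * h)) + (h : ZMod (2 * h)) := by
      push_cast; ring
    rw [h3, ZMod.natCast_self, mul_zero, zero_add]
  -- the two evaluations agree
  have hAB : ∑ p ∈ univ.filter (fun p : Q × Q => θ p.1 = 0), g p =
      ∑ p ∈ univ.filter (fun p : Q × Q => θ p.2 = 0), g p := by
    -- move `(x, y)` along `α` until the label of the second coordinate is `0`
    have hval : ∀ c : ZMod (2 * h), ((((-c).val : ℕ)) : ZMod (2 * h)) = -c := by
      intro c; simp
    apply Finset.sum_bij (fun p _ => ((α ^ (-θ p.2).val) p.1, (α ^ (-θ p.2).val) p.2))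
    · intro p _
      simp only [mem_filter, mem_univ, true_and]
      rw [hθpow, hval]; ring
    · rintro ⟨x, y⟩ hp ⟨x', y'⟩ hp' heq
      simp only [mem_filter, mem_univ, true_and] at hp hp'
      simp only [Prod.mk.injEq] at heq
      obtain ⟨h1, h2⟩ := heq
      have h3 := congrArg θ h1
      rw [hθpow, hθpow, hval, hval, hp, hp', zero_add, zero_add] at h3
      rw [h3] at h1 h2
      rw [(α ^ (-θ y').val).injective h1, (α ^ (-θ y').val).injective h2]
    · rintro ⟨x, y⟩ hp
      simp only [mem_filter, mem_univ, true_and] at hp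
      have hinv : ∀ (k : ℕ) (z : Q), θ (((α ^ k)⁻¹) z) = θ z - k := by
        intro k z
        have h1 := hθpow k (((α ^ k)⁻¹) z)
        have h2 : (α ^ k) (((α ^ k)⁻¹) z) = z := by simp
        rw [h2] at h1
        rw [h1]; ring
      have hv : (((θ x).val : ℕ) : ZMod (2 * h)) = θ x := by simp
      refine ⟨(((α ^ (θ x).val)⁻¹) x, ((α ^ (θ x).val)⁻¹) y), ?_, ?_⟩
      · simp only [mem_filter, mem_univ, true_and]
        rw [hinv, hv, sub_self]
      · have h1 : -θ (((α ^ (θ x).val)⁻¹) y) = θ x := by
          rw [hinv, hv, hp, zero_sub, neg_neg]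
        simp only [h1]
        simp
    · intro p _
      exact (hg _ p).symm
  rw [hA, hB] at hAB
  have h1 : ((h : ℕ) : ZMod (2 * h)) = 0 := hAB.symm
  rw [ZMod.natCast_eq_zero_iff] at h1
  have := Nat.le_of_dvd hh h1
  omega

/-- A finite quasigroup on which a finite group with cyclic Sylow 2-subgroups acts transitively by
automorphisms has odd order. -/
theorem odd_card_of_cyclic_sylow {G : Type u} [Group G] [Finite G] {Q : Type v} [MulAction G Q]
    {op : Q → Q → Q} (hq : IsQuasigroup op)
    (haut : ∀ (g : G) (x y : Q), g • op x y = op (g • x) (g • y))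
    (htrans : ∀ x y : Q, ∃ g : G, g • x = y) (P : Sylow 2 G) (hP : IsCyclic P) :
    Odd (Nat.card Q) := by
  classical
  obtain ⟨x₀⟩ := hq.nonempty
  have hfin : Finite Q := Finite.of_surjective (fun g : G => g • x₀) (fun y => htrans x₀ y)
  have hpre : MulAction.IsPretransitive G Q := ⟨htrans⟩
  by_contra hodd
  rw [Nat.not_odd_iff_even] at hodd
  have hn0 : Nat.card Q ≠ 0 := Nat.card_ne_zero.mpr ⟨⟨x₀⟩, hfin⟩
  -- the 2-part of `|Q|`
  obtain ⟨k, r, hr, hkr⟩ : ∃ k r, ¬ 2 ∣ r ∧ Nat.card Q = 2 ^ k * r :=
    Nat.exists_eq_pow_mul_and_not_dvd hn0 2 (by norm_num)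
  have hk0 : k ≠ 0 := by
    intro h
    rw [h, pow_zero, one_mul] at hkr
    rw [hkr] at hodd
    exact hr hodd.two_dvd
  obtain ⟨l, rfl⟩ := Nat.exists_eq_succ_of_ne_zero hk0
  have hrodd : Odd r := Nat.not_even_iff_odd.mp (fun h => hr h.two_dvd)
  -- a generator of `P`
  obtain ⟨α, hα⟩ := hP.exists_generator
  have hordα : orderOf (α : G) = Nat.card P := by
    rw [Subgroup.orderOf_coe]
    exact orderOf_eq_card_of_forall_mem_zpowers hα
  obtain ⟨a, ha⟩ := IsPGroup.iff_card.mp P.isPGroup'
  have hindex : ¬ 2 ∣ (P : Subgroup G).index := P.not_dvd_index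
  have hcG : 2 ^ a * (P : Subgroup G).index = Nat.card G := by
    rw [← ha]; exact Subgroup.card_mul_index _
  -- periods
  have hper : ∀ x : Q, 2 ^ (l + 1) ∣ Function.minimalPeriod (fun y : Q => (α : G) • y) x := by
    intro x
    set t := Function.minimalPeriod (fun y : Q => (α : G) • y) x with ht
    have h1 : t ∣ 2 ^ a := by
      have h2 : (α : G) ^ (2 ^ a) • x = x := by
        rw [← ha, ← hordα, pow_orderOf_eq_one, one_smul]
      exact (MulAction.pow_smul_eq_iff_minimalPeriod_dvd (a := (α : G)) (b := x)).mp h2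
    obtain ⟨u, hu⟩ := h1
    have ht0 : t ≠ 0 := by
      intro h0
      rw [h0, zero_mul] at hu
      exact absurd hu (by positivity)
    have h3 : (α : G) ^ t ∈ MulAction.stabilizer G x := by
      rw [MulAction.mem_stabilizer_iff]
      exact (MulAction.pow_smul_eq_iff_minimalPeriod_dvd (a := (α : G)) (b := x)).mpr dvd_rfl
    have h4 : orderOf ((α : G) ^ t) = u := by
      rw [orderOf_pow_of_dvd ht0 (by rw [hordα, ha, hu]; exact dvd_mul_right _ _), hordα, ha, hu]
      exact Nat.mul_div_cancel_left u (Nat.pos_of_ne_zero ht0)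
    have h5 : u ∣ Nat.card (MulAction.stabilizer G x) := by
      rw [← h4]
      exact Subgroup.orderOf_dvd_natCard _ h3
    have h6 : Nat.card (MulAction.stabilizer G x) * Nat.card Q = Nat.card G := by
      rw [← MulAction.index_stabilizer_of_transitive G x]
      exact Subgroup.card_mul_index _
    have h7 : u * Nat.card Q ∣ u * (t * (P : Subgroup G).index) := by
      have h8 : u * (t * (P : Subgroup G).index) = Nat.card G := by
        rw [← hcG, hu]; ring
      rw [h8, ← h6]
      exact Nat.mul_dvd_mul_right h5 _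
    have hu0 : 0 < u := by
      rcases Nat.eq_zero_or_pos u with h | h
      · rw [h, mul_zero] at hu
        exact absurd hu (by positivity)
      · exact h
    have h8 := Nat.dvd_of_mul_dvd_mul_left hu0 h7
    have h9 : 2 ^ (l + 1) ∣ t * (P : Subgroup G).index := by
      refine dvd_trans ?_ h8
      rw [hkr]; exact dvd_mul_right _ _
    refine Nat.Coprime.dvd_of_dvd_mul_right ?_ h9
    apply Nat.Coprime.pow_left
    exact (Nat.Prime.coprime_iff_not_dvd Nat.prime_two).mpr hindex
  -- conclude
  let σ : Equiv.Perm Q := MulAction.toPerm (α : G)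
  have hσ : σ ∈ AutGroup op := by
    intro x y
    exact haut _ x y
  refine no_automorphism hq σ hσ (2 ^ l) r (by positivity) hrodd ?_ ?_
  · rw [hkr, Nat.succ_eq_add_one, pow_succ]; ring
  · intro x
    have := hper x
    rw [pow_succ, mul_comm] at this
    exact this

end MP8306f4
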