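import Mathlib

/-!
Hall 2-complements in finite solvable groups.
-/

namespace MP8306f4

universe u v

theorem exists_normal_pgroup {G : Type u} [Group G] [Finite G] [Group.IsSolvable G] [Nontrivial G] :
    ∃ (p : ℕ) (N : Subgroup G), p.Prime ∧ N.Normal ∧ N ≠ ⊥ ∧ IsPGroup p N := by
  classical
  have hsol : ∃ n, derivedSeries G n = ⊥ := (Group.isSolvable_def G).mp inferInstance
  let n := Nat.find hsol
  have hn : derivedSeries G n = ⊥ := Nat.find_spec hsol
  have hn0 : n ≠ 0 := by
    intro h
    rw [h, derivedSeries_zero] at hn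
    exact top_ne_bot hn
  obtain ⟨m, hm⟩ := Nat.exists_eq_succ_of_ne_zero hn0
  have hmn : derivedSeries G m ≠ ⊥ := Nat.find_min hsol (by omega)
  let A : Subgroup G := derivedSeries G m
  have hA : A ≠ ⊥ := hmn
  have hcomm : ∀ a ∈ A, ∀ b ∈ A, a * b = b * a := by
    intro a ha b hb
    rw [hm, Nat.succ_eq_add_one, derivedSeries_succ] at hn
    have h1 := Subgroup.commutator_mem_commutator (H₁ := A) (H₂ := A) ha hb
    have h2 : a * b * a⁻¹ * b⁻¹ ∈ (⊥ : Subgroup G) := by rw [← hn]; exact h1
    rw [Subgroup.mem_bot] at h2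
    have h3 : a * b * a⁻¹ = b := mul_inv_eq_one.mp h2
    calc a * b = a * b * a⁻¹ * a := by group
      _ = b * a := by rw [h3]
  have hAn : A.Normal := derivedSeries_normal G m
  have hcard : Nat.card A ≠ 1 := by
    intro h
    exact hA (Subgroup.eq_bot_of_card_eq A h)
  obtain ⟨p, hp, hpd⟩ := Nat.exists_prime_and_dvd hcard
  haveI : Fact p.Prime := ⟨hp⟩
  obtain ⟨x, hx⟩ := exists_prime_orderOf_dvd_card' p hpd
  let N : Subgroup G :=
    { carrier := {a | a ∈ A ∧ a ^ p = 1}
      mul_mem' := by
        rintro a b ⟨ha, ha'⟩ ⟨hb, hb'⟩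
        refine ⟨A.mul_mem ha hb, ?_⟩
        have : Commute a b := hcomm a ha b hb
        rw [this.mul_pow, ha', hb', one_mul]
      one_mem' := ⟨A.one_mem, one_pow p⟩
      inv_mem' := by
        rintro a ⟨ha, ha'⟩
        refine ⟨A.inv_mem ha, ?_⟩
        rw [inv_pow, ha', inv_one] }
  refine ⟨p, N, hp, ⟨?_⟩, ?_, ?_⟩
  · rintro a ⟨ha, ha'⟩ g
    refine ⟨hAn.conj_mem a ha g, ?_⟩
    rw [conj_pow, ha']
    simp
  · intro h
    have hxN : (x : G) ∈ N := by
      refine ⟨x.2, ?_⟩
      have := pow_orderOf_eq_one x
      rw [hx] at this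
      have h2 := congrArg Subtype.val this
      simpa using h2
    rw [h, Subgroup.mem_bot] at hxN
    have h3 : x = 1 := Subtype.ext hxN
    rw [h3, orderOf_one] at hx
    exact hp.one_lt.ne hx
  · intro a
    refine ⟨1, ?_⟩
    rw [pow_one]
    exact Subtype.ext a.2.2

/-- A finite solvable group has a subgroup of odd order whose index is a power of two. -/
theorem exists_odd_hall_aux (n : ℕ) : ∀ (G : Type u) [Group G] [Finite G] [Group.IsSolvable G],
    Nat.card G ≤ n → ∃ (K : Subgroup G) (k : ℕ), Odd (Nat.card K) ∧ K.index = 2 ^ k := by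
  induction n with
  | zero =>
    intro G _ _ _ hn
    have := Nat.card_pos (α := G)
    omega
  | succ n ih =>
    intro G _ _ _ hn
    rcases subsingleton_or_nontrivial G with h | h
    · refine ⟨⊤, 0, ?_, by simp⟩
      have : Nat.card (⊤ : Subgroup G) = 1 := by
        rw [Nat.card_congr Subgroup.topEquiv.toEquiv]
        exact Nat.card_unique
      rw [this]; exact odd_one
    · obtain ⟨p, N, hp, hNn, hNb, hNp⟩ := exists_normal_pgroup (G := G)
      haveI : Fact p.Prime := ⟨hp⟩
      have hcG : Nat.card G = Nat.card (G ⧸ N) * Nat.card N := Subgroup.card_eq_card_quotient_mul_card_subgroup N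
      have hN1 : 1 < Nat.card N := by
        have h1 : 0 < Nat.card N := Nat.card_pos
        have h2 : Nat.card N ≠ 1 := fun h => hNb (Subgroup.eq_bot_of_card_eq N h)
        omega
      have hlt : Nat.card (G ⧸ N) ≤ n := by
        have h1 : 0 < Nat.card (G ⧸ N) := Nat.card_pos
        have : Nat.card (G ⧸ N) < Nat.card G := by
          rw [hcG]
          exact lt_mul_of_one_lt_right h1 hN1
        omega
      obtain ⟨K', k, hK', hk⟩ := ih (G ⧸ N) hlt
      let K₁ : Subgroup G := K'.comap (QuotientGroup.mk' N)
      have hK₁i : K₁.index = 2 ^ k := by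
        rw [← hk]
        exact Subgroup.index_comap_of_surjective K' (QuotientGroup.mk'_surjective N)
      have hcQ : Nat.card (G ⧸ N) = Nat.card K' * 2 ^ k := by
        rw [← hk]; exact (Subgroup.card_mul_index K').symm
      have hcK₁ : Nat.card K₁ = Nat.card K' * Nat.card N := by
        have h1 : Nat.card K₁ * 2 ^ k = Nat.card G := by
          rw [← hK₁i]; exact Subgroup.card_mul_index K₁
        rw [hcG, hcQ] at h1
        have h2 : 0 < 2 ^ k := by positivity
        apply Nat.eq_of_mul_eq_mul_right h2
        rw [h1]; ring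
      obtain ⟨j, hj⟩ := IsPGroup.iff_card.mp hNp
      rcases hp.eq_two_or_odd' with h2 | hodd
      · subst h2
        -- Schur–Zassenhaus
        have hNle : N ≤ K₁ := by
          intro x hx
          simp only [K₁, Subgroup.mem_comap, QuotientGroup.mk'_apply]
          rw [(QuotientGroup.eq_one_iff x).mpr hx]
          exact K'.one_mem
        haveI : (N.subgroupOf K₁).Normal := inferInstance
        have hcN' : Nat.card (N.subgroupOf K₁) = Nat.card N :=
          Nat.card_congr (Subgroup.subgroupOfEquivOfLe hNle).toEquiv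
        have hiN' : (N.subgroupOf K₁).index = Nat.card K' := by
          have h1 := Subgroup.card_mul_index (N.subgroupOf K₁)
          rw [hcN', hcK₁, mul_comm] at h1
          exact Nat.eq_of_mul_eq_mul_right (by omega) h1
        have hcop : Nat.Coprime (Nat.card (N.subgroupOf K₁)) (N.subgroupOf K₁).index := by
          rw [hcN', hiN', hj]
          exact (Nat.Coprime.pow_left j (Nat.coprime_two_left.mpr hK'))
        obtain ⟨L, hL⟩ := Subgroup.exists_right_complement'_of_coprime hcop
        have hcL : Nat.card L = Nat.card K' := by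
          rw [← hiN']
          exact (hL.symm.index_eq_card).symm
        refine ⟨L.map K₁.subtype, k + j, ?_, ?_⟩
        · rw [Subgroup.card_map_of_injective K₁.subtype_injective, hcL]
          exact hK'
        · have h1 := Subgroup.card_mul_index (L.map K₁.subtype)
          rw [Subgroup.card_map_of_injective K₁.subtype_injective, hcL, hcG, hcQ, hj] at h1
          have h3 : 0 < Nat.card K' := Nat.card_pos
          apply Nat.eq_of_mul_eq_mul_left h3
          rw [h1, pow_add]; ring
      · refine ⟨K₁, k, ?_, hK₁i⟩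
        rw [hcK₁, hj]
        exact hK'.mul (hodd.pow)

/-- Every Sylow 2-subgroup of a finite solvable group has a complement of odd order. -/
theorem exists_odd_complement {G : Type u} [Group G] [Finite G] [Group.IsSolvable G] (S : Sylow 2 G) :
    ∃ K : Subgroup G, Odd (Nat.card K) ∧ Subgroup.IsComplement' K (S : Subgroup G) := by
  obtain ⟨K, k, hK, hk⟩ := exists_odd_hall_aux (Nat.card G) G le_rfl
  refine ⟨K, hK, ?_⟩
  have hcG : Nat.card K * 2 ^ k = Nat.card G := by
    rw [← hk]; exact Subgroup.card_mul_index K
  have hS : Nat.card S = 2 ^ k := by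
    rw [Sylow.card_eq_multiplicity, ← hcG]
    have h1 : Nat.card K ≠ 0 := Nat.card_pos.ne'
    congr 1
    rw [Nat.factorization_mul h1 (by positivity)]
    have h2 : (Nat.card K).factorization 2 = 0 := by
      apply Nat.factorization_eq_zero_of_not_dvd
      intro h
      have := hK.not_two_dvd_nat
      exact this h
    simp [h2, Nat.Prime.factorization_pow Nat.prime_two]
  apply Subgroup.isComplement'_of_coprime
  · rw [hS, hcG]
  · rw [hS]
    exact (Nat.Coprime.pow_right k (Nat.coprime_two_right.mpr hK))

end MP8306f4
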