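import Pool.Agent.Lib_MP_8306f4_co.Two

/-!
Every noncyclic finite 2-group has a rigid orthomorphism.
-/

namespace MP8306f4

universe u v

theorem index_coatom {G : Type u} [Group G] [Finite G] (hG : IsPGroup 2 G) {M : Subgroup G}
    (hM : IsCoatom M) : M.index = 2 := by
  obtain ⟨m, hm⟩ := IsPGroup.iff_card.mp (hG.to_subgroup M)
  obtain ⟨k, hk⟩ := IsPGroup.iff_card.mp hG
  have hmul := Subgroup.card_mul_index M
  have hne : Nat.card M ≠ Nat.card G := fun h => hM.1 (Subgroup.eq_top_of_card_eq M h)
  have hdvd : 2 ^ (m + 1) ∣ Nat.card G := by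
    have h1 : Nat.card M ∣ Nat.card G := Subgroup.card_subgroup_dvd_card M
    rw [hm, hk] at h1
    have h2 := (Nat.pow_dvd_pow_iff_le_right (by norm_num : 1 < 2)).mp h1
    rw [hk]
    apply pow_dvd_pow
    rcases h2.lt_or_eq with h | h
    · omega
    · exfalso; apply hne; rw [hm, hk, h]
  obtain ⟨K, hK, hMK⟩ := Sylow.exists_subgroup_card_pow_succ hdvd hm
  have hKtop : K = ⊤ := by
    rcases hMK.lt_or_eq with h | h
    · exact hM.2 K h
    · exfalso
      rw [← h, hm] at hK
      have := (Nat.pow_right_injective (le_refl 2)) hK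
      omega
  have hcG : Nat.card G = 2 ^ (m + 1) := by
    rw [← hK, hKtop]; exact (Nat.card_congr Subgroup.topEquiv.toEquiv).symm
  rw [hcG, hm, pow_succ] at hmul
  exact Nat.eq_of_mul_eq_mul_left (by positivity) hmul

/-- In a 2-group, an odd power of `x` generates `⟨x⟩`. -/
theorem mem_zpowers_of_not_mem {G : Type u} [Group G] [Finite G] (hG : IsPGroup 2 G) {x g : G}
    (h1 : g ∈ Subgroup.zpowers x) (h2 : g ∉ Subgroup.zpowers (x * x)) :
    x ∈ Subgroup.zpowers g := by
  obtain ⟨i, rfl⟩ := Subgroup.mem_zpowers_iff.mp h1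
  rcases Int.even_or_odd i with hi | hi
  · exfalso
    apply h2
    obtain ⟨j, rfl⟩ := hi
    refine Subgroup.mem_zpowers_iff.mpr ⟨j, ?_⟩
    rw [(Commute.refl x).mul_zpow, zpow_add]
  · rw [mem_zpowers_zpow_iff]
    obtain ⟨k, hk⟩ := (IsPGroup.iff_orderOf.mp hG) x
    rw [hk]
    rw [← Int.isCoprime_iff_gcd_eq_one]
    push_cast
    apply IsCoprime.pow_right
    obtain ⟨j, rfl⟩ := hi
    exact ⟨1, -j, by ring⟩

theorem rigid_of_zpowers_index_two {G : Type u} [Group G] [Finite G] (hG : IsPGroup 2 G)
    (hnc : ¬ IsCyclic G) (a : G) (hidx : (Subgroup.zpowers a).index = 2) : Rigid G := by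
  obtain ⟨k, hk⟩ := IsPGroup.iff_card.mp hG
  have hmul := Subgroup.card_mul_index (Subgroup.zpowers a)
  rw [hidx, Nat.card_zpowers] at hmul
  obtain ⟨j, hj⟩ := (IsPGroup.iff_orderOf.mp hG) a
  have hj0 : j ≠ 0 := by
    intro h
    rw [h, pow_zero] at hj
    rw [hj] at hmul
    have : Fact (Nat.Prime 2) := ⟨Nat.prime_two⟩
    exact hnc (isCyclic_of_prime_card (p := 2) hmul.symm)
  obtain ⟨l, rfl⟩ := Nat.exists_eq_succ_of_ne_zero hj0
  have hane : Subgroup.zpowers a ≠ ⊤ := by
    intro h
    rw [h, Subgroup.index_top] at hidx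
    omega
  obtain ⟨b, hb⟩ : ∃ b, b ∉ Subgroup.zpowers a := by
    by_contra hcon
    push Not at hcon
    exact hane (eq_top_iff.mpr fun x _ => hcon x)
  have hnormal : (Subgroup.zpowers a).Normal := Subgroup.normal_of_index_eq_two hidx
  obtain ⟨s, hs⟩ := Subgroup.mem_zpowers_iff.mp
    (hnormal.conj_mem a (Subgroup.mem_zpowers a) b)
  obtain ⟨e, he⟩ := Subgroup.mem_zpowers_iff.mp
    (Subgroup.mul_self_mem_of_index_two hidx b)
  have horder : orderOf a = 2 * 2 ^ l := by rw [hj, Nat.succ_eq_add_one, pow_succ]; ring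
  have hsodd : Odd s := by
    by_contra hcon
    rw [Int.not_odd_iff_even] at hcon
    obtain ⟨t, rfl⟩ := hcon
    -- (b a b⁻¹)^(2^l) = 1
    have h1 : (b * a * b⁻¹) ^ (2 ^ l) = 1 := by
      rw [← hs, ← zpow_natCast, ← zpow_mul]
      rw [← orderOf_dvd_iff_zpow_eq_one, horder]
      push_cast
      exact ⟨t, by ring⟩
    rw [conj_pow] at h1
    have h2 : a ^ (2 ^ l) = 1 := by
      have := conj_eq_one_iff.mp h1
      exact this
    have h3 := orderOf_dvd_of_pow_eq_one h2
    rw [horder] at h3
    have h4 := Nat.le_of_dvd (by positivity) h3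
    have h5 : 0 < 2 ^ l := by positivity
    omega
  have heeven : Even e := by
    by_contra hcon
    rw [Int.not_even_iff_odd] at hcon
    apply hnc
    have h1 : a ∈ Subgroup.zpowers (b * b) := by
      rw [← he, mem_zpowers_zpow_iff, ← Int.isCoprime_iff_gcd_eq_one, hj]
      push_cast
      apply IsCoprime.pow_right
      obtain ⟨j, rfl⟩ := hcon
      exact ⟨1, -j, by ring⟩
    have h2 : Subgroup.zpowers a ≤ Subgroup.zpowers b := by
      rw [Subgroup.zpowers_le]
      have h3 : Subgroup.zpowers (b * b) ≤ Subgroup.zpowers b := by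
        rw [Subgroup.zpowers_le]
        exact Subgroup.mul_mem _ (Subgroup.mem_zpowers b) (Subgroup.mem_zpowers b)
      exact h3 h1
    have h3 : (Subgroup.zpowers b) = ⊤ := by
      have h4 := Subgroup.relIndex_mul_index h2
      rw [hidx] at h4
      have h5 : (Subgroup.zpowers a).relIndex (Subgroup.zpowers b) ≠ 1 := by
        intro h6
        rw [Subgroup.relIndex_eq_one] at h6
        exact hb (h6 (Subgroup.mem_zpowers b))
      have h6 : (Subgroup.zpowers b).index ∣ 2 := Dvd.intro_left _ h4
      rw [Nat.dvd_prime Nat.prime_two] at h6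
      rcases h6 with h6 | h6
      · exact Subgroup.index_eq_one.mp h6
      · exfalso; rw [h6] at h4; omega
    refine ⟨b, fun x => ?_⟩
    have hx : x ∈ Subgroup.zpowers b := by rw [h3]; trivial
    exact hx
  refine rigid_of_presentation a b (2 ^ l) (by positivity) s e hsodd heeven ?_ horder ?_ ?_ ?_ ?_
  · have : ((2 * 2 ^ l : ℕ) : ℤ) = 2 ^ (l + 1) := by push_cast; ring
    rw [this]
    apply IsCoprime.pow_right
    obtain ⟨t, rfl⟩ := hsodd
    exact ⟨1, t, by ring⟩
  · rw [hs]; simp
  · exact he.symm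
  · rw [← hmul, horder]; ring
  · intro i hi
    exact hb (hi ▸ Subgroup.zpow_mem _ (Subgroup.mem_zpowers a) i)

/-- The Klein four-group. -/
theorem rigid_klein {G : Type u} [Group G] [Finite G] (hcard : Nat.card G = 4)
    (hsq : ∀ x : G, x * x = 1) : Rigid G := by
  have hG : IsPGroup 2 G := IsPGroup.of_card (n := 2) (by rw [hcard]; norm_num)
  have : Nontrivial G := Finite.one_lt_card_iff_nontrivial.mp (by omega)
  obtain ⟨a, ha⟩ := exists_ne (1 : G)
  have hord : ∀ x : G, x ≠ 1 → orderOf x = 2 := by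
    intro x hx
    exact orderOf_eq_prime (by rw [pow_two]; exact hsq x) hx
  have hnc : ¬ IsCyclic G := by
    rintro ⟨g, hg⟩
    have h1 : orderOf g = Nat.card G := orderOf_eq_card_of_forall_mem_zpowers hg
    by_cases h2 : g = 1
    · rw [h2, orderOf_one] at h1; omega
    · rw [hord g h2] at h1; omega
  apply rigid_of_zpowers_index_two hG hnc a
  have hmul := Subgroup.card_mul_index (Subgroup.zpowers a)
  rw [Nat.card_zpowers, hord a ha, hcard] at hmul
  omega

/-- The model of the elementary abelian group of order 8. -/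
theorem rigid_model : Rigid (Multiplicative (Fin 3 → ZMod 2)) := by
  -- multiplication by a root of `t^3 + t + 1`, plus a constant
  let A : (Fin 3 → ZMod 2) → (Fin 3 → ZMod 2) := fun z => ![z 2 + 1, z 0 + z 2, z 1]
  have hA : Function.Bijective A := by decide +kernel
  have hB : Function.Bijective (fun z => -z + A z) := by decide +kernel
  refine ⟨fun x => Multiplicative.ofAdd (A x.toAdd), ⟨?_, ?_⟩, ?_⟩
  · exact hA
  · exact hB
  · intro D hD
    have h0 : Multiplicative.ofAdd (![0, 0, 0] : Fin 3 → ZMod 2) ∈ D := by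
      have : Multiplicative.ofAdd (![0, 0, 0] : Fin 3 → ZMod 2) = 1 := by decide
      rw [this]; exact D.one_mem
    have h1 : Multiplicative.ofAdd (![1, 0, 0] : Fin 3 → ZMod 2) ∈ D := by
      have := hD _ h0
      have h : Multiplicative.ofAdd (A (Multiplicative.ofAdd
        (![0, 0, 0] : Fin 3 → ZMod 2)).toAdd) = Multiplicative.ofAdd ![1, 0, 0] := by decide
      simp only [h] at this
      exact this
    have h2 : Multiplicative.ofAdd (![1, 1, 0] : Fin 3 → ZMod 2) ∈ D := by
      have := hD _ h1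
      have h : Multiplicative.ofAdd (A (Multiplicative.ofAdd
        (![1, 0, 0] : Fin 3 → ZMod 2)).toAdd) = Multiplicative.ofAdd ![1, 1, 0] := by decide
      simp only [h] at this
      exact this
    have h3 : Multiplicative.ofAdd (![1, 1, 1] : Fin 3 → ZMod 2) ∈ D := by
      have := hD _ h2
      have h : Multiplicative.ofAdd (A (Multiplicative.ofAdd
        (![1, 1, 0] : Fin 3 → ZMod 2)).toAdd) = Multiplicative.ofAdd ![1, 1, 1] := by decide
      simp only [h] at this
      exact this
    rw [eq_top_iff]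
    intro x _
    have key : ∀ x : Multiplicative (Fin 3 → ZMod 2), ∃ i j k : Fin 2,
        x = (Multiplicative.ofAdd (![1, 0, 0] : Fin 3 → ZMod 2)) ^ (i : ℕ) *
          (Multiplicative.ofAdd (![1, 1, 0] : Fin 3 → ZMod 2)) ^ (j : ℕ) *
          (Multiplicative.ofAdd (![1, 1, 1] : Fin 3 → ZMod 2)) ^ (k : ℕ) := by
      decide +kernel
    obtain ⟨i, j, k, rfl⟩ := key x
    exact D.mul_mem (D.mul_mem (D.pow_mem h1 _) (D.pow_mem h2 _)) (D.pow_mem h3 _)

theorem rigid_elementary_eight {G : Type u} [Group G] [Finite G] (hcard : Nat.card G = 8)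
    (hsq : ∀ x : G, x * x = 1) : Rigid G := by
  have hcomm : ∀ x y : G, x * y = y * x := by
    intro x y
    have h1 : ∀ z : G, z⁻¹ = z := fun z => inv_eq_of_mul_eq_one_left (hsq z)
    calc x * y = (x * y)⁻¹ := (h1 _).symm
      _ = y * x := by rw [mul_inv_rev, h1, h1]
  let _ : CommGroup G := { (inferInstance : Group G) with mul_comm := hcomm }
  let _ : Module (ZMod 2) (Additive G) := AddCommGroup.zmodModule (by
    intro x
    rw [two_nsmul]
    exact hsq x.toMul)
  have : Finite (Additive G) := inferInstanceAs (Finite G)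
  have : Module.Finite (ZMod 2) (Additive G) := Module.Finite.of_finite
  have : Fact (Nat.Prime 2) := ⟨Nat.prime_two⟩
  have hrank : Module.finrank (ZMod 2) (Additive G) = 3 := by
    have h1 := Module.natCard_eq_pow_finrank (K := ZMod 2) (V := Additive G)
    have h2 : Nat.card (Additive G) = 8 := hcard
    rw [h2, Nat.card_zmod] at h1
    have h3 : (2 : ℕ) ^ 3 = 2 ^ Module.finrank (ZMod 2) (Additive G) := by rw [← h1]; norm_num
    exact (Nat.pow_right_injective (le_refl 2) h3).symm
  have e : Additive G ≃ₗ[ZMod 2] (Fin 3 → ZMod 2) :=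
    LinearEquiv.ofFinrankEq _ _ (by rw [hrank]; simp)
  have e2 : (Fin 3 → ZMod 2) ≃+ Additive G := e.symm.toAddEquiv
  exact rigid_model.congr (AddEquiv.toMultiplicativeLeft e2)

/-- Counting contradiction: a group of order greater than eight cannot have all its elements
outside `{1, c}` squaring to the involution `c`. -/
theorem no_big_quaternion {Q : Type u} [Group Q] [Finite Q] (c : Q) (hc : c ≠ 1)
    (hcc : c * c = 1) (h : ∀ x : Q, x = 1 ∨ x = c ∨ x * x = c) (hcard : 8 < Nat.card Q) :
    False := by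
  classical
  have := Fintype.ofFinite Q
  have hcomm : ∀ x : Q, x * c = c * x := by
    intro x
    rcases h x with h1 | h1 | h1
    · rw [h1]; simp
    · rw [h1]
    · rw [← h1, mul_assoc]
  have hanti : ∀ x y : Q, x ≠ 1 → x ≠ c → y ≠ 1 → y ≠ c → x * y ≠ 1 → x * y ≠ c →
      y * x = x * y * c := by
    intro x y hx1 hx2 hy1 hy2 hxy1 hxy2
    have h1 : x * x = c := by
      rcases h x with h1 | h1 | h1
      · exact absurd h1 hx1
      · exact absurd h1 hx2
      · exact h1
    have h2 : y * y = c := by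
      rcases h y with h1 | h1 | h1
      · exact absurd h1 hy1
      · exact absurd h1 hy2
      · exact h1
    have h3 : (x * y) * (x * y) = c := by
      rcases h (x * y) with h1 | h1 | h1
      · exact absurd h1 hxy1
      · exact absurd h1 hxy2
      · exact h1
    -- x (y x) y = c, so y x = x⁻¹ c y⁻¹
    have h4 : x⁻¹ = x * c := by
      rw [inv_eq_iff_mul_eq_one, ← mul_assoc, h1, hcc]
    have h5 : y⁻¹ = y * c := by
      rw [inv_eq_iff_mul_eq_one, ← mul_assoc, h2, hcc]
    calc y * x = x⁻¹ * ((x * y) * (x * y)) * y⁻¹ := by group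
      _ = x * c * c * (y * c) := by rw [h3, h4, h5]
      _ = x * y * c := by rw [mul_assoc x c c, hcc, mul_one, mul_assoc]
  have hex : ∀ s : Finset Q, s.card ≤ 8 → ∃ x, x ∉ s := by
    intro s hs
    by_contra hcon
    push Not at hcon
    have h1 : s = Finset.univ := Finset.eq_univ_iff_forall.mpr hcon
    rw [h1, Finset.card_univ, ← Nat.card_eq_fintype_card] at hs
    omega
  obtain ⟨x, hx⟩ := hex {1, c} (le_trans Finset.card_le_two (by norm_num))
  obtain ⟨y, hy⟩ := hex {1, c, x, x * c} (le_trans Finset.card_le_four (by norm_num))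
  obtain ⟨w, hw⟩ := hex {1, c, x, x * c, y, y * c, x * y, x * y * c} (by
    refine le_trans (Finset.card_insert_le _ _) ?_
    refine Nat.succ_le_succ (le_trans (Finset.card_insert_le _ _) ?_)
    exact Nat.succ_le_succ Finset.card_le_six)
  simp only [Finset.mem_insert, Finset.mem_singleton, not_or] at hx hy hw
  obtain ⟨hx1, hx2⟩ := hx
  obtain ⟨hy1, hy2, hy3, hy4⟩ := hy
  obtain ⟨hw1, hw2, hw3, hw4, hw5, hw6, hw7, hw8⟩ := hw
  -- inverses
  have hinv : ∀ z : Q, z ≠ 1 → z ≠ c → z⁻¹ = z * c := by
    intro z hz1 hz2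
    have h1 : z * z = c := by
      rcases h z with h1 | h1 | h1
      · exact absurd h1 hz1
      · exact absurd h1 hz2
      · exact h1
    rw [inv_eq_iff_mul_eq_one, ← mul_assoc, h1, hcc]
  -- `z * v ∉ {1, c}` if `z ∉ {1, c}` and `v ∉ {z, z * c}`
  have hprod : ∀ z v : Q, z ≠ 1 → z ≠ c → v ≠ z → v ≠ z * c → z * v ≠ 1 ∧ z * v ≠ c := by
    intro z v hz1 hz2 hv1 hv2
    constructor
    · intro h1
      apply hv2
      rw [← hinv z hz1 hz2]
      exact (inv_eq_of_mul_eq_one_right h1).symm
    · intro h1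
      apply hv1
      have h2 : v = z⁻¹ * c := by rw [← h1]; simp
      rw [h2, hinv z hz1 hz2, mul_assoc, hcc, mul_one]
  obtain ⟨hxy1, hxy2⟩ := hprod x y hx1 hx2 hy3 hy4
  obtain ⟨hxw1, hxw2⟩ := hprod x w hx1 hx2 hw3 hw4
  obtain ⟨hyw1, hyw2⟩ := hprod y w hy1 hy2 hw5 hw6
  obtain ⟨hxyw1, hxyw2⟩ := hprod (x * y) w hxy1 hxy2 hw7 hw8
  rw [mul_assoc] at hxyw1 hxyw2
  have h1 := hanti x y hx1 hx2 hy1 hy2 hxy1 hxy2
  have h2 := hanti x w hx1 hx2 hw1 hw2 hxw1 hxw2
  have h3 := hanti x (y * w) hx1 hx2 hyw1 hyw2 hxyw1 hxyw2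
  -- y w x = y x w c = x y c w c = x y w
  have h4 : y * w * x = x * (y * w) := by
    rw [mul_assoc, h2, ← mul_assoc, ← mul_assoc, h1]
    rw [mul_assoc (x * y) c w, ← hcomm w, ← mul_assoc, mul_assoc _ c c, hcc, mul_one, mul_assoc]
  rw [h3] at h4
  exact hc (mul_eq_left.mp h4)

theorem not_mem_zpowers_sq {G : Type u} [Group G] [Finite G] (hG : IsPGroup 2 G) {y : G}
    (hy : y ≠ 1) : y ∉ Subgroup.zpowers (y * y) := by
  intro h1
  obtain ⟨i, hi⟩ := Subgroup.mem_zpowers_iff.mp h1
  rw [(Commute.refl y).mul_zpow, ← zpow_add] at hi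
  have h2 : y ^ (i + i - 1) = 1 := by rw [zpow_sub, hi, zpow_one, mul_inv_cancel]
  rw [← orderOf_dvd_iff_zpow_eq_one] at h2
  obtain ⟨k, hk⟩ := (IsPGroup.iff_orderOf.mp hG) y
  rw [hk] at h2
  rcases Nat.eq_zero_or_pos k with h3 | h3
  · rw [h3, pow_zero, orderOf_eq_one_iff] at hk
    exact hy hk
  · have h4 : (2 : ℤ) ∣ i + i - 1 := by
      refine dvd_trans ?_ h2
      push_cast
      exact dvd_pow_self 2 (by omega)
    omega

theorem relIndex_zpowers_sq {G : Type u} [Group G] [Finite G] (hG : IsPGroup 2 G) {y : G}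
    (hy : y ≠ 1) : (Subgroup.zpowers (y * y)).relIndex (Subgroup.zpowers y) = 2 := by
  rw [Subgroup.relIndex_eq_two_iff]
  refine ⟨y, Subgroup.mem_zpowers y, ?_⟩
  intro b hb
  obtain ⟨i, rfl⟩ := Subgroup.mem_zpowers_iff.mp hb
  have hyC := not_mem_zpowers_sq hG hy
  rcases Int.even_or_odd i with hi | hi
  · obtain ⟨j, rfl⟩ := hi
    have h1 : y ^ (j + j) ∈ Subgroup.zpowers (y * y) := by
      refine Subgroup.mem_zpowers_iff.mpr ⟨j, ?_⟩
      rw [(Commute.refl y).mul_zpow, ← zpow_add]
    right
    refine ⟨h1, ?_⟩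
    intro h2
    exact hyC ((Subgroup.mul_mem_cancel_left _ h1).mp h2)
  · obtain ⟨j, rfl⟩ := hi
    left
    have h1 : y ^ (2 * j + 1) * y ∈ Subgroup.zpowers (y * y) := by
      refine Subgroup.mem_zpowers_iff.mpr ⟨j + 1, ?_⟩
      rw [(Commute.refl y).mul_zpow, ← zpow_add, ← zpow_add_one]
      congr 1; ring
    refine ⟨h1, ?_⟩
    intro h2
    exact hyC ((Subgroup.mul_mem_cancel_left _ h2).mp h1)

theorem rigid_of_two_group_aux (n : ℕ) : ∀ (G : Type u) [Group G] [Finite G],
    Nat.card G ≤ n → IsPGroup 2 G → ¬ IsCyclic G → Rigid G := by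
  induction n with
  | zero =>
    intro G _ _ hn
    have := Nat.card_pos (α := G)
    omega
  | succ n ih =>
    intro G _ _ hn hG hnc
    have hnt : Nontrivial G := by
      by_contra hcon
      rw [not_nontrivial_iff_subsingleton] at hcon
      exact hnc isCyclic_of_subsingleton
    -- two maximal subgroups
    obtain ⟨M₁, hM₁, -⟩ : ∃ M : Subgroup G, IsCoatom M ∧ ⊥ ≤ M := by
      rcases eq_top_or_exists_le_coatom (⊥ : Subgroup G) with h | h
      · exact absurd h bot_ne_top
      · exact h
    obtain ⟨x₀, hx₀⟩ : ∃ x, x ∉ M₁ := by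
      by_contra hcon
      push Not at hcon
      exact hM₁.1 (eq_top_iff.mpr fun x _ => hcon x)
    obtain ⟨M₂, hM₂, hxM₂⟩ : ∃ M : Subgroup G, IsCoatom M ∧ Subgroup.zpowers x₀ ≤ M := by
      rcases eq_top_or_exists_le_coatom (Subgroup.zpowers x₀) with h | h
      · exfalso
        apply hnc
        refine ⟨x₀, fun x => ?_⟩
        have hx : x ∈ Subgroup.zpowers x₀ := by rw [h]; trivial
        exact hx
      · exact h
    have hi₁ := index_coatom hG hM₁
    have hi₂ := index_coatom hG hM₂
    have hn₁ : M₁.Normal := Subgroup.normal_of_index_eq_two hi₁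
    have hn₂ : M₂.Normal := Subgroup.normal_of_index_eq_two hi₂
    obtain ⟨N, hNdef⟩ : ∃ N : Subgroup G, N = M₁ ⊓ M₂ := ⟨_, rfl⟩
    have hNn : N.Normal := by rw [hNdef]; infer_instance
    have hsqN : ∀ x : G, x * x ∈ N := by
      intro x
      rw [hNdef]
      exact ⟨Subgroup.mul_self_mem_of_index_two hi₁ x, Subgroup.mul_self_mem_of_index_two hi₂ x⟩
    have hiN : N.index = 4 := by
      have h1 : N.relIndex M₂ * M₂.index = N.index :=
        Subgroup.relIndex_mul_index (by rw [hNdef]; exact inf_le_right)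
      have h2 : N.relIndex M₂ = 2 := by
        rw [hNdef, Subgroup.inf_relIndex_right]
        have h3 : M₁.relIndex M₂ ∣ 2 := by
          rw [← hi₁]; exact Subgroup.relIndex_dvd_index_of_normal M₁ M₂
        rcases (Nat.dvd_prime Nat.prime_two).mp h3 with h4 | h4
        · exfalso
          rw [Subgroup.relIndex_eq_one] at h4
          exact hx₀ (h4 (hxM₂ (Subgroup.mem_zpowers x₀)))
        · exact h4
      rw [← h1, h2, hi₂]
    -- the general extension step
    have hstep : ∀ L : Subgroup G, L.Normal → L.index = 4 → (∀ x : G, x * x ∈ L) →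
        ¬ IsCyclic L → Rigid G := by
      intro L hL hiL hsq hLc
      have hmul := Subgroup.card_mul_index L
      rw [hiL] at hmul
      have hposL : 0 < Nat.card L := Nat.card_pos
      refine rigid_of_extension L (ih L (by omega) (hG.to_subgroup L) hLc) ?_
      apply rigid_klein
      · rw [← Subgroup.index_eq_card, hiL]
      · intro q
        obtain ⟨x, rfl⟩ := QuotientGroup.mk_surjective q
        rw [← QuotientGroup.mk_mul, QuotientGroup.eq_one_iff]
        exact hsq x
    by_cases hNc : IsCyclic N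
    swap
    · exact hstep N hNn hiN hsqN hNc
    -- `N` is cyclic
    obtain ⟨⟨y, hyN⟩, hy⟩ := hNc
    have hNz : N = Subgroup.zpowers y := by
      apply le_antisymm
      · intro g hg
        obtain ⟨i, hi⟩ := hy ⟨g, hg⟩
        refine Subgroup.mem_zpowers_iff.mpr ⟨i, ?_⟩
        exact congrArg Subtype.val hi
      · rw [Subgroup.zpowers_le]; exact hyN
    obtain ⟨C, hC⟩ : ∃ C : Subgroup G, C = Subgroup.zpowers (y * y) := ⟨_, rfl⟩
    by_cases hex : ∃ x : G, x * x ∉ C
    · -- a cyclic subgroup of index two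
      obtain ⟨x, hx⟩ := hex
      have h1 : x * x ∈ Subgroup.zpowers y := by rw [← hNz]; exact hsqN x
      have h2 : y ∈ Subgroup.zpowers (x * x) :=
        mem_zpowers_of_not_mem hG h1 (by rw [← hC]; exact hx)
      have h3 : Subgroup.zpowers (x * x) ≤ Subgroup.zpowers x := by
        rw [Subgroup.zpowers_le]
        exact Subgroup.mul_mem _ (Subgroup.mem_zpowers x) (Subgroup.mem_zpowers x)
      have h4 : N ≤ Subgroup.zpowers x := by
        rw [hNz, Subgroup.zpowers_le]
        exact h3 h2
      have hxN : x ∉ N := by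
        intro hxN
        rw [hNz] at hxN
        obtain ⟨i, rfl⟩ := Subgroup.mem_zpowers_iff.mp hxN
        apply hx
        rw [hC]
        refine Subgroup.mem_zpowers_iff.mpr ⟨i, ?_⟩
        rw [(Commute.refl y).mul_zpow]
      have h5 := Subgroup.relIndex_mul_index h4
      rw [hiN] at h5
      have h6 : N.relIndex (Subgroup.zpowers x) ≠ 1 := by
        intro h7
        rw [Subgroup.relIndex_eq_one] at h7
        exact hxN (h7 (Subgroup.mem_zpowers x))
      have h7 : (Subgroup.zpowers x).index ≠ 1 := by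
        intro h8
        rw [Subgroup.index_eq_one] at h8
        apply hnc
        refine ⟨x, fun z => ?_⟩
        have hz : z ∈ Subgroup.zpowers x := by rw [h8]; trivial
        exact hz
      have h8 : (Subgroup.zpowers x).index = 2 := by
        have h9 : (Subgroup.zpowers x).index ∣ 4 := Dvd.intro_left _ h5
        have h10 : (Subgroup.zpowers x).index ≤ 4 := Nat.le_of_dvd (by norm_num) h9
        interval_cases hh : (Subgroup.zpowers x).index
        · omega
        · exact absurd rfl h7
        · rfl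
        · omega
        · omega
      exact rigid_of_zpowers_index_two hG hnc x h8
    push Not at hex
    -- all squares are in `C`
    by_cases hNbot : N = ⊥
    · -- the Klein group
      apply rigid_klein
      · have := Subgroup.card_mul_index N
        rw [hiN, hNbot, Subgroup.card_bot] at this
        omega
      · intro x
        have := hsqN x
        rw [hNbot, Subgroup.mem_bot] at this
        exact this
    have hy1 : y ≠ 1 := by
      intro h
      apply hNbot
      rw [hNz, h, Subgroup.zpowers_one_eq_bot]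
    have hyC : y ∉ C := by rw [hC]; exact not_mem_zpowers_sq hG hy1
    have hCN : C ≤ N := by
      rw [hC, hNz, Subgroup.zpowers_le]
      exact Subgroup.mul_mem _ (Subgroup.mem_zpowers y) (Subgroup.mem_zpowers y)
    have hCn : C.Normal := by
      constructor
      intro g hg k
      rw [hC] at hg
      obtain ⟨i, rfl⟩ := Subgroup.mem_zpowers_iff.mp hg
      have : k * (y * y) ^ i * k⁻¹ = (k * (y ^ i) * k⁻¹) * (k * (y ^ i) * k⁻¹) := by
        rw [(Commute.refl y).mul_zpow]; group
      rw [this]
      exact hex _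
    have hiC : C.index = 8 := by
      rw [← Subgroup.relIndex_mul_index hCN, hiN, hC, hNz, relIndex_zpowers_sq hG hy1]
    -- the quotient by `C`
    have hQsq : ∀ q : G ⧸ C, q * q = 1 := by
      intro q
      obtain ⟨x, rfl⟩ := QuotientGroup.mk_surjective q
      rw [← QuotientGroup.mk_mul, QuotientGroup.eq_one_iff]
      exact hex x
    have hQcomm : ∀ a b : G ⧸ C, a * b = b * a := by
      intro a b
      have h1 : ∀ z : G ⧸ C, z⁻¹ = z := fun z => inv_eq_of_mul_eq_one_left (hQsq z)
      calc a * b = (a * b)⁻¹ := (h1 _).symm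
        _ = b * a := by rw [mul_inv_rev, h1, h1]
    by_cases hnx : ∃ x : G, x ∉ C ∧
        ¬ IsCyclic ((Subgroup.zpowers (x : G ⧸ C)).comap (QuotientGroup.mk' C))
    · obtain ⟨x, hxC, hxc⟩ := hnx
      have hn3 : (Subgroup.zpowers (x : G ⧸ C)).Normal := by
        constructor
        intro n hn g
        rw [hQcomm g n, mul_inv_cancel_right]
        exact hn
      refine hstep _ inferInstance ?_ ?_ hxc
      · rw [Subgroup.index_comap_of_surjective _ (QuotientGroup.mk'_surjective C)]
        have h1 := Subgroup.card_mul_index (Subgroup.zpowers (x : G ⧸ C))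
        rw [Nat.card_zpowers, ← Subgroup.index_eq_card, hiC] at h1
        have h2 : orderOf (x : G ⧸ C) = 2 := by
          apply orderOf_eq_prime
          · rw [pow_two]; exact hQsq _
          · intro h3
            exact hxC ((QuotientGroup.eq_one_iff x).mp h3)
        rw [h2] at h1
        omega
      · intro z
        rw [Subgroup.mem_comap, QuotientGroup.mk'_apply, QuotientGroup.mk_mul, hQsq]
        exact Subgroup.one_mem _
    push Not at hnx
    -- all the subgroups `⟨x⟩ C` are cyclic
    have hgen : ∀ x : G, x ∉ C → y * y ∈ Subgroup.zpowers (x * x) := by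
      intro x hx
      obtain ⟨⟨z, hzL⟩, hz⟩ := hnx x hx
      have hzx : ∀ g ∈ (Subgroup.zpowers (x : G ⧸ C)).comap (QuotientGroup.mk' C),
          g ∈ Subgroup.zpowers z := by
        intro g hg
        obtain ⟨i, hi⟩ := hz ⟨g, hg⟩
        exact Subgroup.mem_zpowers_iff.mpr ⟨i, congrArg Subtype.val hi⟩
      have h1 : x ∈ Subgroup.zpowers z := by
        apply hzx
        rw [Subgroup.mem_comap, QuotientGroup.mk'_apply]
        exact Subgroup.mem_zpowers _
      have h2 : x ∉ Subgroup.zpowers (z * z) := by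
        intro h3
        have h4 : Subgroup.zpowers (z * z) ≤ C := by
          rw [Subgroup.zpowers_le]; exact hex z
        exact hx (h4 h3)
      have h3 : z ∈ Subgroup.zpowers x := mem_zpowers_of_not_mem hG h1 h2
      have h4 : y * y ∈ Subgroup.zpowers x := by
        have h5 : y * y ∈ Subgroup.zpowers z := by
          apply hzx
          rw [Subgroup.mem_comap, QuotientGroup.mk'_apply, QuotientGroup.mk_mul, hQsq]
          exact Subgroup.one_mem _
        have h6 : Subgroup.zpowers z ≤ Subgroup.zpowers x := by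
          rw [Subgroup.zpowers_le]; exact h3
        exact h6 h5
      by_contra hcon
      have h5 := mem_zpowers_of_not_mem hG h4 hcon
      apply hx
      rw [hC]
      exact h5
    obtain ⟨c, hc⟩ : ∃ c : G, c = y * y := ⟨_, rfl⟩
    rw [← hc] at hC hgen
    by_cases hc1 : c = 1
    · have hCbot : C = ⊥ := by rw [hC, hc1, Subgroup.zpowers_one_eq_bot]
      apply rigid_elementary_eight
      · rw [hCbot, Subgroup.index_bot] at hiC
        exact hiC
      · intro x
        have := hex x
        rw [hCbot, Subgroup.mem_bot] at this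
        exact this
    exfalso
    obtain ⟨E, hE⟩ : ∃ E : Subgroup G, E = Subgroup.zpowers (c * c) := ⟨_, rfl⟩
    have hcE : c ∉ E := by rw [hE]; exact not_mem_zpowers_sq hG hc1
    have hEn : E.Normal := by
      constructor
      intro g hg k
      rw [hE] at hg
      obtain ⟨i, rfl⟩ := Subgroup.mem_zpowers_iff.mp hg
      have h1 : k * (c * c) ^ i * k⁻¹ = (k * (c ^ i) * k⁻¹) * (k * (c ^ i) * k⁻¹) := by
        rw [(Commute.refl c).mul_zpow]; group
      have h2 : k * (c ^ i) * k⁻¹ ∈ C := by
        apply hCn.conj_mem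
        rw [hC]
        exact Subgroup.zpow_mem _ (Subgroup.mem_zpowers c) i
      rw [h1]
      rw [hC] at h2
      obtain ⟨j, hj⟩ := Subgroup.mem_zpowers_iff.mp h2
      rw [← hj, hE]
      refine Subgroup.mem_zpowers_iff.mpr ⟨j, ?_⟩
      rw [(Commute.refl c).mul_zpow]
    have hEC : E ≤ C := by
      rw [hE, hC, Subgroup.zpowers_le]
      exact Subgroup.mul_mem _ (Subgroup.mem_zpowers c) (Subgroup.mem_zpowers c)
    have hiE : E.index = 16 := by
      rw [← Subgroup.relIndex_mul_index hEC, hiC, hE, hC, relIndex_zpowers_sq hG hc1]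
    have hcc : ((c : G) : G ⧸ E) * (c : G ⧸ E) = 1 := by
      rw [← QuotientGroup.mk_mul, QuotientGroup.eq_one_iff, hE]
      exact Subgroup.mem_zpowers _
    have hclass : ∀ i : ℤ, (Even i ∧ c ^ i ∈ E) ∨
        (Odd i ∧ ((c ^ i : G) : G ⧸ E) = (c : G ⧸ E)) := by
      intro i
      rcases Int.even_or_odd i with hi | hi
      · left
        refine ⟨hi, ?_⟩
        obtain ⟨j, rfl⟩ := hi
        rw [hE]
        refine Subgroup.mem_zpowers_iff.mpr ⟨j, ?_⟩
        rw [(Commute.refl c).mul_zpow, ← zpow_add]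
      · right
        refine ⟨hi, ?_⟩
        obtain ⟨j, rfl⟩ := hi
        rw [QuotientGroup.mk_zpow, zpow_add, zpow_mul, zpow_one, zpow_two, hcc, one_zpow,
          one_mul]
    refine no_big_quaternion ((c : G) : G ⧸ E) ?_ hcc ?_ ?_
    · intro h
      exact hcE ((QuotientGroup.eq_one_iff c).mp h)
    · intro q
      obtain ⟨g, rfl⟩ := QuotientGroup.mk_surjective q
      by_cases hg : g ∈ C
      · rw [hC] at hg
        obtain ⟨i, rfl⟩ := Subgroup.mem_zpowers_iff.mp hg
        rcases hclass i with ⟨_, h1⟩ | ⟨_, h1⟩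
        · left; exact (QuotientGroup.eq_one_iff _).mpr h1
        · right; left; exact h1
      · right; right
        have h1 := hgen g hg
        have h2 := hex g
        rw [hC] at h2
        obtain ⟨i, hi⟩ := Subgroup.mem_zpowers_iff.mp h2
        rcases hclass i with ⟨_, h3⟩ | ⟨_, h3⟩
        · exfalso
          rw [hi] at h3
          have h4 : Subgroup.zpowers (g * g) ≤ E := by
            rw [Subgroup.zpowers_le]; exact h3
          exact hcE (h4 h1)
        · rw [← QuotientGroup.mk_mul, ← hi]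
          exact h3
    · rw [← Subgroup.index_eq_card, hiE]
      norm_num

/-- Every noncyclic finite 2-group has a rigid orthomorphism. -/
theorem rigid_of_two_group {G : Type u} [Group G] [Finite G] (hG : IsPGroup 2 G)
    (hnc : ¬ IsCyclic G) : Rigid G :=
  rigid_of_two_group_aux _ G le_rfl hG hnc

end MP8306f4
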