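import Pool.Agent.Lib_MP_8306f4_co.Fact
import Pool.Agent.Lib_MP_8306f4_co.Hall
import Pool.Agent.Lib_MP_8306f4_co.TwoGroup
import Pool.Agent.Lib_MP_8306f4_co.Neg

/-!
Assembly: groups with a 2-complement.
-/

namespace MP8306f4

universe u v

theorem rigid_of_complement {G : Type u} [Group G] [Finite G] (S : Sylow 2 G)
    (K : Subgroup G) (hK : Odd (Nat.card K)) (hKS : Subgroup.IsComplement' K (S : Subgroup G))
    (hS : IsCyclic S → Nat.card S = 1) : Rigid G := by
  refine rigid_of_factorisation K S hKS hK ?_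
  by_cases hc : IsCyclic S
  · have h1 := hS hc
    have h2 : Subsingleton S := (Nat.card_eq_one_iff_unique.mp h1).1
    exact rigid_of_subsingleton _
  · exact rigid_of_two_group S.isPGroup' hc

theorem isComplement_of_index {G : Type u} [Group G] [Finite G] (S : Sylow 2 G)
    (K : Subgroup G) (hK : Odd (Nat.card K)) {k : ℕ} (hk : K.index = 2 ^ k) :
    Subgroup.IsComplement' K (S : Subgroup G) := by
  have hcG : Nat.card K * 2 ^ k = Nat.card G := by
    rw [← hk]; exact Subgroup.card_mul_index K
  have hS : Nat.card S = 2 ^ k := by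
    rw [Sylow.card_eq_multiplicity, ← hcG]
    have h1 : Nat.card K ≠ 0 := Nat.card_pos.ne'
    congr 1
    rw [Nat.factorization_mul h1 (by positivity)]
    have h2 : (Nat.card K).factorization 2 = 0 := by
      apply Nat.factorization_eq_zero_of_not_dvd
      intro h
      have := hK.not_two_dvd_nat
      exact this h
    simp [h2, Nat.Prime.factorization_pow Nat.prime_two]
  apply Subgroup.isComplement'_of_coprime
  · rw [hS, hcG]
  · rw [hS]
    exact (Nat.Coprime.pow_right k (Nat.coprime_two_right.mpr hK))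

/-- A group with a regular representation and with cyclic Sylow 2-subgroups has odd order. -/
theorem card_sylow_of_admitsRegular {G : Type u} [Group G] [Finite G] (h : AdmitsRegular G)
    (S : Sylow 2 G) (hS : IsCyclic S) : Nat.card S = 1 := by
  obtain ⟨Q, op, hq, ⟨e⟩, htrans, hreg⟩ := h
  let ρ : G →* Equiv.Perm Q := (AutGroup op).subtype.comp e.symm.toMonoidHom
  let _ : MulAction G Q := MulAction.compHom Q ρ
  have hact : ∀ (g : G) (x : Q), g • x = (e.symm g : Equiv.Perm Q) x := fun g x => rfl
  have h1 : ∀ (g : G) (x y : Q), g • op x y = op (g • x) (g • y) := by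
    intro g x y
    rw [hact, hact, hact]
    exact (e.symm g).2 x y
  have h2 : ∀ x y : Q, ∃ g : G, g • x = y := by
    intro x y
    obtain ⟨φ, hφ, hxy⟩ := htrans x y
    refine ⟨e ⟨φ, hφ⟩, ?_⟩
    rw [hact, e.symm_apply_apply]
    exact hxy
  have h3 := odd_card_of_cyclic_sylow hq h1 h2 S hS
  obtain ⟨x₀⟩ := hq.nonempty
  have h4 : Function.Bijective (fun g : G => g • x₀) := by
    constructor
    · intro g g' hgg'
      simp only at hgg'
      have h5 : (g'⁻¹ * g) • x₀ = x₀ := by
        rw [mul_smul, hgg', inv_smul_smul]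
      have h6 : ((e.symm (g'⁻¹ * g)) : Equiv.Perm Q) = 1 := hreg _ (e.symm _).2 x₀ h5
      have h7 : e.symm (g'⁻¹ * g) = 1 := Subtype.ext h6
      have h8 : g'⁻¹ * g = 1 := by
        have := congrArg e h7
        simpa using this
      exact (inv_mul_eq_one.mp h8).symm
    · intro y
      exact h2 x₀ y
  have h5 : Nat.card G = Nat.card Q := Nat.card_congr (Equiv.ofBijective _ h4)
  rw [← h5] at h3
  obtain ⟨a, ha⟩ := IsPGroup.iff_card.mp S.isPGroup'
  have h6 : Nat.card S ∣ Nat.card G := Subgroup.card_subgroup_dvd_card _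
  rcases Nat.eq_zero_or_pos a with h7 | h7
  · rw [ha, h7, pow_zero]
  · exfalso
    rw [ha] at h6
    have h8 : 2 ∣ Nat.card G := dvd_trans (dvd_pow_self 2 (by omega)) h6
    exact h3.not_two_dvd_nat h8

/-- A finite group with a nontrivial cyclic Sylow 2-subgroup and a central involution admits no
transitive representation. -/
theorem not_admitsTransitive_of_central {G : Type u} [Group G] [Finite G] (S : Sylow 2 G)
    (hS : IsCyclic S) (z : G) (hz : z ∈ Subgroup.center G) (hz2 : orderOf z = 2) :
    ¬ AdmitsTransitive G := by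
  rintro ⟨Q, op, hq, ⟨e⟩, htrans⟩
  classical
  let ρ : G →* Equiv.Perm Q := (AutGroup op).subtype.comp e.symm.toMonoidHom
  let _ : MulAction G Q := MulAction.compHom Q ρ
  have hact : ∀ (g : G) (x : Q), g • x = (e.symm g : Equiv.Perm Q) x := fun g x => rfl
  have h1 : ∀ (g : G) (x y : Q), g • op x y = op (g • x) (g • y) := by
    intro g x y
    rw [hact, hact, hact]
    exact (e.symm g).2 x y
  have h2 : ∀ x y : Q, ∃ g : G, g • x = y := by
    intro x y
    obtain ⟨φ, hφ, hxy⟩ := htrans x y
    refine ⟨e ⟨φ, hφ⟩, ?_⟩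
    rw [hact, e.symm_apply_apply]
    exact hxy
  have h3 := odd_card_of_cyclic_sylow hq h1 h2 S hS
  obtain ⟨x₀⟩ := hq.nonempty
  have hfin : Finite Q := Finite.of_surjective (fun g : G => g • x₀) (fun y => h2 x₀ y)
  -- `z` has a fixed point
  have hfix : ∃ x : Q, z • x = x := by
    have hp : IsPGroup 2 (Subgroup.zpowers z) :=
      IsPGroup.of_card (n := 1) (by rw [Nat.card_zpowers, hz2, pow_one])
    have : Fact (Nat.Prime 2) := ⟨Nat.prime_two⟩
    obtain ⟨x, hx⟩ := hp.nonempty_fixed_point_of_prime_not_dvd_card Q h3.not_two_dvd_nat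
    exact ⟨x, hx ⟨z, Subgroup.mem_zpowers z⟩⟩
  obtain ⟨x, hx⟩ := hfix
  have h7 : ∀ y : Q, z • y = y := by
    intro y
    obtain ⟨g, rfl⟩ := h2 x y
    rw [← mul_smul, (Subgroup.mem_center_iff.mp hz g).symm, mul_smul, hx]
  have h8 : e.symm z = 1 := by
    apply Subtype.ext
    ext y
    exact h7 y
  have h9 : z = 1 := by
    have := congrArg e h8
    simpa using this
  rw [h9, orderOf_one] at hz2
  omega

end MP8306f4
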