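import Pool.Agent.Lib_MP_8306f4_co.Basic

/-!
Rigid orthomorphisms: closure under extensions, and under exact factorisations with a factor of
odd order.
-/

namespace MP8306f4

universe u v

/-- Closure under extensions. -/
theorem rigid_of_extension {G : Type u} [Group G] [Finite G] (N : Subgroup G) [N.Normal]
    (hN : Rigid N) (hQ : Rigid (G ⧸ N)) : Rigid G := by
  classical
  obtain ⟨ρ, ⟨hρ, hρq⟩, hρD⟩ := hN
  obtain ⟨F, ⟨hF, hFq⟩, hFD⟩ := hQ
  -- coset representatives
  let t : G ⧸ N → G := Quotient.out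
  have ht : ∀ q : G ⧸ N, ((t q : G) : G ⧸ N) = q := fun q => Quotient.out_eq q
  -- the `N`-part
  have hν : ∀ x : G, x * (t (x : G ⧸ N))⁻¹ ∈ N := by
    intro x
    rw [← QuotientGroup.eq_one_iff]
    rw [QuotientGroup.mk_mul, QuotientGroup.mk_inv, ht]
    simp
  let f₀ : G → G := fun x => (ρ ⟨x * (t (x : G ⧸ N))⁻¹, hν x⟩ : G) * t (F (x : G ⧸ N))
  have hf₀class : ∀ x : G, ((f₀ x : G) : G ⧸ N) = F (x : G ⧸ N) := by
    intro x
    simp only [f₀]
    rw [QuotientGroup.mk_mul, ht]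
    have : (((ρ ⟨x * (t (x : G ⧸ N))⁻¹, hν x⟩ : N) : G) : G ⧸ N) = 1 := by
      rw [QuotientGroup.eq_one_iff]
      exact (ρ _).2
    rw [this, one_mul]
  have hf₀class' : ∀ (k : ℕ), ((f₀^[k] 1 : G) : G ⧸ N) = F^[k] 1 := by
    intro k
    induction k with
    | zero => simp
    | succ k ih => rw [Function.iterate_succ_apply', Function.iterate_succ_apply', hf₀class, ih]
  -- the preimage of `1` under `F` is in the orbit of `1`
  obtain ⟨j, hj⟩ := hF.2 1
  have hex : ∃ r : ℕ, F^[r] 1 = j := by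
    have hper : (1 : G ⧸ N) ∈ Function.periodicPts F :=
      Function.Injective.mem_periodicPts hF.1 1
    obtain ⟨n, hn, hn1⟩ := hper
    refine ⟨n - 1, ?_⟩
    apply hF.1
    rw [hj, ← Function.iterate_succ_apply' F, Nat.succ_eq_add_one, Nat.sub_add_cancel hn]
    exact hn1
  let r := Nat.find hex
  have hr : F^[r] 1 = j := Nat.find_spec hex
  have hrmin : ∀ k < r, F^[k] 1 ≠ j := fun k hk => Nat.find_min hex hk
  let e : G := f₀^[r] 1
  have he : ((e : G) : G ⧸ N) = j := by rw [hf₀class' r, hr]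
  have hmem : ∀ x : G, (x : G ⧸ N) = j → x * e⁻¹ ∈ N := by
    intro x hx
    rw [← QuotientGroup.eq_one_iff, QuotientGroup.mk_mul, QuotientGroup.mk_inv, he, hx]
    simp
  let f : G → G := fun x => if hx : (x : G ⧸ N) = j then (ρ ⟨x * e⁻¹, hmem x hx⟩ : G) else f₀ x
  have hfj : ∀ (x : G) (hx : (x : G ⧸ N) = j), f x = ρ ⟨x * e⁻¹, hmem x hx⟩ := by
    intro x hx
    simp only [f, hx, dif_pos]
  have hfnj : ∀ (x : G) (_ : (x : G ⧸ N) ≠ j), f x = f₀ x := by
    intro x hx
    simp only [f, hx, dif_neg, not_false_eq_true]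
  have hfclass : ∀ x : G, ((f x : G) : G ⧸ N) = F (x : G ⧸ N) := by
    intro x
    by_cases hx : (x : G ⧸ N) = j
    · rw [hfj x hx, hx, hj, QuotientGroup.eq_one_iff]
      exact (ρ _).2
    · rw [hfnj x hx, hf₀class]
  refine ⟨f, isOrth_of_injective ?_ ?_, ?_⟩
  · intro x y hxy
    have hc : (x : G ⧸ N) = (y : G ⧸ N) := by
      apply hF.1
      rw [← hfclass, ← hfclass, hxy]
    by_cases hx : (x : G ⧸ N) = j
    · have hy : (y : G ⧸ N) = j := by rw [← hc, hx]
      rw [hfj x hx, hfj y hy] at hxy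
      have := hρ.1 (Subtype.ext hxy)
      have h2 := congrArg Subtype.val this
      simpa using h2
    · have hy : (y : G ⧸ N) ≠ j := by rw [← hc]; exact hx
      rw [hfnj x hx, hfnj y hy] at hxy
      simp only [f₀] at hxy
      have h1 : (ρ ⟨x * (t (x : G ⧸ N))⁻¹, hν x⟩ : G) = ρ ⟨y * (t (y : G ⧸ N))⁻¹, hν y⟩ := by
        have hc2 : t (F (x : G ⧸ N)) = t (F (y : G ⧸ N)) := by rw [hc]
        rw [hc2] at hxy
        exact mul_right_cancel hxy
      have h2 := congrArg Subtype.val (hρ.1 (Subtype.ext h1))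
      simp only [hc] at h2
      exact mul_right_cancel h2
  · intro x y hxy
    have hc : (x : G ⧸ N) = (y : G ⧸ N) := by
      apply hFq.1
      simp only
      rw [← hfclass, ← hfclass, ← QuotientGroup.mk_inv, ← QuotientGroup.mk_inv,
        ← QuotientGroup.mk_mul, ← QuotientGroup.mk_mul, hxy]
    by_cases hx : (x : G ⧸ N) = j
    · have hy : (y : G ⧸ N) = j := by rw [← hc, hx]
      rw [hfj x hx, hfj y hy] at hxy
      have h1 : (⟨x * e⁻¹, hmem x hx⟩ : N)⁻¹ * ρ ⟨x * e⁻¹, hmem x hx⟩ =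
          (⟨y * e⁻¹, hmem y hy⟩ : N)⁻¹ * ρ ⟨y * e⁻¹, hmem y hy⟩ := by
        apply Subtype.ext
        simp only [Subgroup.coe_mul, InvMemClass.coe_inv, mul_inv_rev, inv_inv]
        rw [mul_assoc, hxy, mul_assoc]
      have h2 := congrArg Subtype.val (hρq.1 h1)
      simpa using h2
    · have hy : (y : G ⧸ N) ≠ j := by rw [← hc]; exact hx
      rw [hfnj x hx, hfnj y hy] at hxy
      simp only [f₀] at hxy
      have h1 : (⟨x * (t (x : G ⧸ N))⁻¹, hν x⟩ : N)⁻¹ * ρ ⟨x * (t (x : G ⧸ N))⁻¹, hν x⟩ =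
          (⟨y * (t (y : G ⧸ N))⁻¹, hν y⟩ : N)⁻¹ * ρ ⟨y * (t (y : G ⧸ N))⁻¹, hν y⟩ := by
        apply Subtype.ext
        simp only [Subgroup.coe_mul, InvMemClass.coe_inv, mul_inv_rev, inv_inv]
        have h3 : x⁻¹ * ((ρ ⟨x * (t (x : G ⧸ N))⁻¹, hν x⟩ : G)) =
            y⁻¹ * ((ρ ⟨y * (t (y : G ⧸ N))⁻¹, hν y⟩ : G)) := by
          rw [← mul_assoc, ← mul_assoc] at hxy
          have hc2 : t (F (x : G ⧸ N)) = t (F (y : G ⧸ N)) := by rw [hc]
          rw [hc2] at hxy
          exact mul_right_cancel hxy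
        have hc3 : t (x : G ⧸ N) = t (y : G ⧸ N) := by rw [hc]
        calc t (x : G ⧸ N) * x⁻¹ * ((ρ ⟨x * (t (x : G ⧸ N))⁻¹, hν x⟩ : G))
            = t (x : G ⧸ N) * (x⁻¹ * ((ρ ⟨x * (t (x : G ⧸ N))⁻¹, hν x⟩ : G))) := by
              rw [mul_assoc]
          _ = t (y : G ⧸ N) * (y⁻¹ * ((ρ ⟨y * (t (y : G ⧸ N))⁻¹, hν y⟩ : G))) := by
              rw [h3, hc3]
          _ = _ := by rw [mul_assoc]
      have h2 := congrArg Subtype.val (hρq.1 h1)
      simp only [hc] at h2
      exact mul_right_cancel h2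
  · intro D hD
    -- the image of `D` is everything
    have hmap : D.map (QuotientGroup.mk' N) = ⊤ := by
      apply hFD
      rintro _ ⟨x, hx, rfl⟩
      refine ⟨f x, hD x hx, ?_⟩
      simp only [QuotientGroup.mk'_apply]
      exact hfclass x
    -- `e ∈ D`
    have hiter : ∀ k ≤ r, f^[k] 1 = f₀^[k] 1 := by
      intro k
      induction k with
      | zero => intro _; rfl
      | succ k ih =>
        intro hk
        rw [Function.iterate_succ_apply', Function.iterate_succ_apply', ih (by omega)]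
        apply hfnj
        rw [hf₀class' k]
        exact hrmin k (by omega)
    have hiterD : ∀ k : ℕ, f^[k] 1 ∈ D := by
      intro k
      induction k with
      | zero => exact D.one_mem
      | succ k ih =>
        rw [Function.iterate_succ_apply']
        exact hD _ ih
    have heD : e ∈ D := by
      have := hiterD r
      rw [hiter r le_rfl] at this
      exact this
    have hND : D.subgroupOf N = ⊤ := by
      apply hρD
      intro y hy
      rw [Subgroup.mem_subgroupOf] at hy ⊢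
      have h1 : (y : G) * e ∈ D := D.mul_mem hy heD
      have h2 : (((y : G) * e : G) : G ⧸ N) = j := by
        rw [QuotientGroup.mk_mul, he]
        have : ((y : G) : G ⧸ N) = 1 := by
          rw [QuotientGroup.eq_one_iff]; exact y.2
        rw [this, one_mul]
      have h3 := hD _ h1
      rw [hfj _ h2] at h3
      have h4 : (⟨(y : G) * e * e⁻¹, hmem _ h2⟩ : N) = y := by
        apply Subtype.ext; simp
      rw [h4] at h3
      exact h3
    have hNle : N ≤ D := by
      rw [Subgroup.subgroupOf_eq_top] at hND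
      exact hND
    rw [eq_top_iff]
    intro x _
    have : (x : G ⧸ N) ∈ D.map (QuotientGroup.mk' N) := by rw [hmap]; trivial
    obtain ⟨d, hd, hdx⟩ := this
    simp only [QuotientGroup.mk'_apply] at hdx
    have h5 : d⁻¹ * x ∈ N := by
      rw [← QuotientGroup.eq]; exact hdx
    have := D.mul_mem hd (hNle h5)
    simpa using this

/-- A complete mapping normalised at `1`, from an orthomorphism. -/
theorem exists_normalised_complete {S : Type u} [Group S] {ρ : S → S} (h : IsOrth ρ) :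
    ∃ ψ : S → S, Function.Bijective ψ ∧ Function.Bijective (fun s => s * ψ s) ∧ ψ 1 = 1 := by
  -- ψ s = s⁻¹ * θ s, θ normalised orthomorphism
  obtain ⟨h1, h2⟩ := h
  refine ⟨fun s => s⁻¹ * (ρ s * (ρ 1)⁻¹), ?_, ?_, ?_⟩
  · have : (fun s : S => s⁻¹ * (ρ s * (ρ 1)⁻¹)) =
        (Equiv.mulRight (ρ 1)⁻¹) ∘ (fun s => s⁻¹ * ρ s) := by
      ext s; simp [mul_assoc]
    rw [this]
    exact (Equiv.bijective _).comp h2
  · have : (fun s : S => s * (s⁻¹ * (ρ s * (ρ 1)⁻¹))) =
        (Equiv.mulRight (ρ 1)⁻¹) ∘ ρ := by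
      ext s; simp
    rw [this]
    exact (Equiv.bijective _).comp h1
  · simp

/-- Exact factorisation `G = K S` with `K` of odd order and `S` admitting a normalised complete
mapping: there is an orthomorphism mapping every subgroup above `S` to itself
and squaring the elements of `K`. -/
theorem exists_orth_of_factorisation {G : Type u} [Group G] [Finite G] (K S : Subgroup G)
    (hKS : Subgroup.IsComplement' K S) (hK : Odd (Nat.card K)) {ψ : S → S}
    (hψ : Function.Bijective ψ) (hψ' : Function.Bijective (fun s => s * ψ s)) (hψ1 : ψ 1 = 1) :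
    ∃ f : G → G, IsOrth f ∧ (∀ M : Subgroup G, S ≤ M → ∀ x ∈ M, f x ∈ M) ∧
      ∀ k ∈ K, f k = k * k := by
  classical
  -- projections
  have hdec : ∀ g : G, ∃ k : K, ∃ s : S, (k : G) * s = g := by
    intro g
    have := hKS.2 g
    obtain ⟨⟨k, s⟩, h⟩ := this
    exact ⟨k, s, h⟩
  choose κ σ hκσ using hdec
  have huniq : ∀ (k k' : K) (s s' : S), (k : G) * s = (k' : G) * s' → k = k' ∧ s = s' := by
    intro k k' s s' h
    have := @hKS.1 (k, s) (k', s') h
    exact ⟨congrArg Prod.fst this, congrArg Prod.snd this⟩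
  have huniqG : ∀ (k k' s s' : G), k ∈ K → k' ∈ K → s ∈ S → s' ∈ S → k * s = k' * s' →
      k = k' ∧ s = s' := by
    intro k k' s s' hk hk' hs hs' h
    have := huniq ⟨k, hk⟩ ⟨k', hk'⟩ ⟨s, hs⟩ ⟨s', hs'⟩ h
    exact ⟨congrArg Subtype.val this.1, congrArg Subtype.val this.2⟩
  have hdis : ∀ g : G, g ∈ K → g ∈ S → g = 1 := by
    intro g hgK hgS
    have := huniqG g 1 1 g hgK K.one_mem S.one_mem hgS (by simp)
    exact this.1
  have hsq : ∀ k k' : K, k * k = k' * k' → k = k' := by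
    intro k k' h
    have hodd : (Nat.card K).Coprime 2 := hK.coprime_two_right
    have := (powCoprime hodd).injective (a₁ := k) (a₂ := k') (by
      simp only [powCoprime_apply]
      rw [pow_two, pow_two, h])
    exact this
  let σ' : G → S := fun g => σ ((σ g : G)⁻¹ * (κ g : G))
  let κ' : G → K := fun g => κ ((σ g : G)⁻¹ * (κ g : G))
  have hσ' : ∀ g, (κ' g : G) * (σ' g : G) = (σ g : G)⁻¹ * (κ g : G) := fun g => hκσ _
  let f : G → G := fun g => (κ g : G) * (κ g : G) * (ψ (σ' g) : G)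
  have hfq : ∀ g, g⁻¹ * f g = (κ' g : G) * ((σ' g * ψ (σ' g) : S) : G) := by
    intro g
    simp only [f]
    have h1 : g⁻¹ * ((κ g : G) * (κ g : G) * (ψ (σ' g) : G)) =
        ((σ g : G)⁻¹ * (κ g : G)) * (ψ (σ' g) : G) := by
      conv_lhs => rw [← hκσ g]
      have h2 : κ ((κ g : G) * (σ g : G)) = κ g := by rw [hκσ g]
      have h3 : σ' ((κ g : G) * (σ g : G)) = σ' g := by rw [hκσ g]
      rw [h2, h3]
      group
    rw [h1, ← hσ' g]
    simp [mul_assoc]
  refine ⟨f, isOrth_of_injective ?_ ?_, ?_, ?_⟩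
  · intro g g' h
    simp only [f] at h
    have h1 := huniqG _ _ _ _ (K.mul_mem (κ g).2 (κ g).2) (K.mul_mem (κ g').2 (κ g').2)
      (ψ (σ' g)).2 (ψ (σ' g')).2 h
    have hk : κ g = κ g' := hsq _ _ (Subtype.ext h1.1)
    have hs : σ' g = σ' g' := hψ.1 (Subtype.ext h1.2)
    have h2 := hσ' g
    have h3 := hσ' g'
    rw [hs] at h2
    rw [← hk] at h3
    -- κ' g * s' = (σ g)⁻¹ k ; κ' g' * s' = (σ g')⁻¹ k
    have h4 : (κ' g : G)⁻¹ * (κ' g' : G) =
        ((σ' g' : G) * ((κ g : G)⁻¹ * ((σ g : G) * (σ g' : G)⁻¹) * (κ g : G)) *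
          (σ' g' : G)⁻¹) := by
      have h5 : (κ' g : G) = (σ g : G)⁻¹ * (κ g : G) * (σ' g' : G)⁻¹ := by
        rw [← h2]; simp
      have h6 : (κ' g' : G) = (σ g' : G)⁻¹ * (κ g : G) * (σ' g' : G)⁻¹ := by
        rw [← h3]; simp
      rw [h5, h6]
      group
    have h7 : (σ g : G) * (σ g' : G)⁻¹ =
        (σ g : G) * (σ g' : G)⁻¹ := rfl
    have h8 : (κ' g : G) * (κ' g' : G)⁻¹ = (σ g : G)⁻¹ * (σ g' : G) := by
      have h5 : (κ' g : G) = (σ g : G)⁻¹ * (κ g : G) * (σ' g' : G)⁻¹ := by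
        rw [← h2]; simp
      have h6 : (κ' g' : G) = (σ g' : G)⁻¹ * (κ g : G) * (σ' g' : G)⁻¹ := by
        rw [← h3]; simp
      rw [h5, h6]
      group
    have h9 : (σ g : G)⁻¹ * (σ g' : G) = 1 := by
      apply hdis
      · rw [← h8]; exact K.mul_mem (κ' g).2 (K.inv_mem (κ' g').2)
      · exact S.mul_mem (S.inv_mem (σ g).2) (σ g').2
    have h10 : (σ g : G) = (σ g' : G) := (inv_mul_eq_one.mp h9)
    rw [← hκσ g, ← hκσ g', hk, h10]
  · intro g g' h
    rw [hfq, hfq] at h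
    have h1 := huniqG _ _ _ _ (κ' g).2 (κ' g').2 (σ' g * ψ (σ' g)).2 (σ' g' * ψ (σ' g')).2 h
    have hk : (κ' g : G) = κ' g' := h1.1
    have hs : σ' g = σ' g' := hψ'.1 (Subtype.ext h1.2)
    have h2 := hσ' g
    have h3 := hσ' g'
    rw [hk, hs, h3] at h2
    -- (σ g')⁻¹ * κ g' = (σ g)⁻¹ * κ g
    have h4 : (κ g' : G) * (κ g : G)⁻¹ = (σ g' : G) * (σ g : G)⁻¹ := by
      have h5 : (κ g' : G) = (σ g' : G) * ((σ g : G)⁻¹ * (κ g : G)) := by
        rw [← h2]; simp
      rw [h5]; group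
    have h5 : (κ g' : G) * (κ g : G)⁻¹ = 1 := by
      apply hdis
      · exact K.mul_mem (κ g').2 (K.inv_mem (κ g).2)
      · rw [h4]; exact S.mul_mem (σ g').2 (S.inv_mem (σ g).2)
    have h6 : (κ g' : G) = κ g := mul_inv_eq_one.mp h5
    have h7 : (σ g' : G) = σ g := by
      rw [h5] at h4
      exact mul_inv_eq_one.mp h4.symm
    rw [← hκσ g, ← hκσ g', h6, h7]
  · intro M hSM x hx
    simp only [f]
    have h1 : (κ x : G) ∈ M := by
      have : (κ x : G) = x * (σ x : G)⁻¹ := by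
        conv_rhs => rw [← hκσ x]
        have h2 : σ ((κ x : G) * (σ x : G)) = σ x := by rw [hκσ x]
        rw [h2]
        simp
      rw [this]
      exact M.mul_mem hx (M.inv_mem (hSM (σ x).2))
    exact M.mul_mem (M.mul_mem h1 h1) (hSM (ψ _).2)
  · intro k hk
    have h1 := huniqG (κ k) k (σ k) 1 (κ k).2 hk (σ k).2 S.one_mem (by rw [hκσ k]; simp)
    have h2 : (σ k : G) = 1 := h1.2
    have h3 : (κ k : G) = k := h1.1
    have h4 : σ' k = 1 := by
      have h5 := hσ' k
      rw [h2, h3] at h5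
      have h6 := huniqG (κ' k) k (σ' k) 1 (κ' k).2 hk (σ' k).2 S.one_mem (by
        rw [h5]; simp)
      exact Subtype.ext h6.2
    simp only [f]
    rw [h3, h4, hψ1]
    simp

end MP8306f4
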