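import Pool.Agent.Lib_MP_8306f4_co.Ext

/-!
Rigid orthomorphisms and exact factorisations with a factor of odd order; Hall 2-complements.
-/

namespace MP8306f4

universe u v

theorem isComplement'_subgroupOf {G : Type u} [Group G] {K S M : Subgroup G}
    (h : Subgroup.IsComplement' K S) (hSM : S ≤ M) :
    Subgroup.IsComplement' (K.subgroupOf M) (S.subgroupOf M) := by
  constructor
  · rintro ⟨⟨⟨a, ha⟩, ha'⟩, ⟨⟨b, hb⟩, hb'⟩⟩ ⟨⟨⟨c, hc⟩, hc'⟩, ⟨⟨d, hd⟩, hd'⟩⟩ heq
    have h1 : a * b = c * d := congrArg Subtype.val heq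
    have h2 := @h.1 (⟨a, ha'⟩, ⟨b, hb'⟩) (⟨c, hc'⟩, ⟨d, hd'⟩) h1
    have h3 : a = c := congrArg (fun p => (p.1 : G)) h2
    have h4 : b = d := congrArg (fun p => (p.2 : G)) h2
    subst h3 h4
    rfl
  · rintro ⟨g, hg⟩
    obtain ⟨⟨⟨k, hk⟩, ⟨s, hs⟩⟩, hks⟩ := h.2 g
    have hks' : k * s = g := hks
    have hkM : k ∈ M := by
      have : k = g * s⁻¹ := by rw [← hks']; simp
      rw [this]
      exact M.mul_mem hg (M.inv_mem (hSM hs))
    exact ⟨⟨⟨⟨k, hkM⟩, hk⟩, ⟨⟨s, hSM hs⟩, hs⟩⟩, Subtype.ext hks'⟩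

/-- The one-step construction: `M` is a maximal subgroup with a rigid orthomorphism, `f` is an
orthomorphism of `G` mapping `M` to itself, and `f d = d * d` for some `d` outside `M`. -/
theorem rigid_of_coatom {G : Type u} [Group G] [Finite G] {M : Subgroup G} (hM : IsCoatom M)
    (hMR : Rigid M) {f : G → G} (hf : IsOrth f) (hfM : ∀ x ∈ M, f x ∈ M) {d : G} (hd : d ∉ M)
    (hfd : f d = d * d) : Rigid G := by
  classical
  obtain ⟨ρ, ⟨hρ, hρq⟩, hρD⟩ := hMR
  obtain ⟨hf1, hf2⟩ := hf
  -- `f` maps the complement of `M` to itself, as does the quotient map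
  have hfMc : ∀ x, x ∉ M → f x ∉ M := by
    intro x hx hfx
    let f' : M → M := fun y => ⟨f y, hfM y y.2⟩
    have hinj : Function.Injective f' := by
      intro a b hab
      exact Subtype.ext (hf1.1 (congrArg Subtype.val hab))
    obtain ⟨y, hy⟩ := Finite.surjective_of_injective hinj ⟨f x, hfx⟩
    have : f y = f x := congrArg Subtype.val hy
    exact hx (hf1.1 this ▸ y.2)
  have hfMc' : ∀ x, x ∉ M → x⁻¹ * f x ∉ M := by
    intro x hx hfx
    let f' : M → M := fun y => ⟨(y : G)⁻¹ * f y, M.mul_mem (M.inv_mem y.2) (hfM y y.2)⟩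
    have hinj : Function.Injective f' := by
      intro a b hab
      exact Subtype.ext (hf2.1 (congrArg Subtype.val hab))
    obtain ⟨y, hy⟩ := Finite.surjective_of_injective hinj ⟨x⁻¹ * f x, hfx⟩
    have : (y : G)⁻¹ * f y = x⁻¹ * f x := congrArg Subtype.val hy
    exact hx (hf2.1 this ▸ y.2)
  let g : G → G := fun x => if hx : x ∈ M then (ρ ⟨x, hx⟩ : G) else f x
  have hgM : ∀ (x : G) (hx : x ∈ M), g x = ρ ⟨x, hx⟩ := by
    intro x hx; simp only [g, hx, dif_pos]
  have hgM' : ∀ (x : G), x ∉ M → g x = f x := by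
    intro x hx; simp only [g, hx, dif_neg, not_false_eq_true]
  have hg1 : Function.Injective g := by
    intro x y hxy
    by_cases hx : x ∈ M <;> by_cases hy : y ∈ M
    · rw [hgM x hx, hgM y hy] at hxy
      exact congrArg Subtype.val (hρ.1 (Subtype.ext hxy))
    · exfalso
      rw [hgM x hx, hgM' y hy] at hxy
      exact hfMc y hy (hxy ▸ (ρ _).2)
    · exfalso
      rw [hgM' x hx, hgM y hy] at hxy
      exact hfMc x hx (hxy ▸ (ρ _).2)
    · rw [hgM' x hx, hgM' y hy] at hxy
      exact hf1.1 hxy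
  have hg2 : ∀ x y, x⁻¹ * g x = y⁻¹ * g y → x = y := by
    intro x y hxy
    by_cases hx : x ∈ M <;> by_cases hy : y ∈ M
    · rw [hgM x hx, hgM y hy] at hxy
      exact congrArg Subtype.val (hρq.1 (a₁ := ⟨x, hx⟩) (a₂ := ⟨y, hy⟩) (Subtype.ext hxy))
    · exfalso
      rw [hgM x hx, hgM' y hy] at hxy
      exact hfMc' y hy (hxy ▸ M.mul_mem (M.inv_mem hx) (ρ _).2)
    · exfalso
      rw [hgM' x hx, hgM y hy] at hxy
      exact hfMc' x hx (hxy ▸ M.mul_mem (M.inv_mem hy) (ρ _).2)
    · rw [hgM' x hx, hgM' y hy] at hxy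
      exact hf2.1 hxy
  refine ⟨fun x => g (x * d) * (d⁻¹ * d⁻¹ * d⁻¹), isOrth_of_injective ?_ ?_, ?_⟩
  · intro x y hxy
    exact mul_right_cancel (hg1 (mul_right_cancel hxy))
  · intro x y hxy
    have h1 : (x * d)⁻¹ * g (x * d) = (y * d)⁻¹ * g (y * d) := by
      have h2 : x⁻¹ * g (x * d) = y⁻¹ * g (y * d) := by
        have h3 : x⁻¹ * g (x * d) * (d⁻¹ * d⁻¹ * d⁻¹) = y⁻¹ * g (y * d) * (d⁻¹ * d⁻¹ * d⁻¹) := by
          rw [mul_assoc, mul_assoc y⁻¹]
          exact hxy
        exact mul_right_cancel h3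
      rw [mul_inv_rev, mul_inv_rev, mul_assoc, h2, mul_assoc]
    exact mul_right_cancel (hg2 _ _ h1)
  · intro D hD
    have hdD : d ∈ D := by
      have h1 := hD 1 D.one_mem
      simp only [one_mul] at h1
      rw [hgM' d hd, hfd] at h1
      have h2 : d * d * (d⁻¹ * d⁻¹ * d⁻¹) = d⁻¹ := by group
      rw [h2] at h1
      exact (Subgroup.inv_mem_iff D).mp h1
    have hMD : M ≤ D := by
      rw [← Subgroup.subgroupOf_eq_top]
      apply hρD
      intro y hy
      rw [Subgroup.mem_subgroupOf] at hy ⊢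
      have h1 := hD _ (D.mul_mem hy (D.inv_mem hdD))
      simp only [inv_mul_cancel_right] at h1
      rw [hgM y y.2] at h1
      have hd3 : d⁻¹ * d⁻¹ * d⁻¹ ∈ D := D.mul_mem (D.mul_mem (D.inv_mem hdD) (D.inv_mem hdD))
        (D.inv_mem hdD)
      exact (Subgroup.mul_mem_cancel_right D hd3).mp h1
    rcases eq_or_lt_of_le hMD with h | h
    · exact absurd (h ▸ hdD) hd
    · exact hM.2 D h

/-- If `G = K S` is an exact factorisation with `|K|` odd and `S` has a rigid orthomorphism,
then so does `G`. -/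
theorem rigid_of_factorisation_aux (n : ℕ) : ∀ (G : Type u) [Group G] [Finite G]
    (K S : Subgroup G), Nat.card G ≤ n → Subgroup.IsComplement' K S → Odd (Nat.card K) →
    Rigid S → Rigid G := by
  induction n with
  | zero =>
    intro G _ _ K S hn
    have := Nat.card_pos (α := G)
    omega
  | succ n ih =>
    intro G _ _ K S hn hKS hK hS
    rcases eq_top_or_exists_le_coatom S with h | ⟨M, hM, hSM⟩
    · subst h
      exact hS.congr Subgroup.topEquiv
    · -- `M` is rigid by induction
      have hMR : Rigid M := by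
        apply ih M (K.subgroupOf M) (S.subgroupOf M)
        · have : Nat.card M < Nat.card G := by
            have h1 : Nat.card M ∣ Nat.card G := Subgroup.card_subgroup_dvd_card M
            have h2 : Nat.card M ≠ Nat.card G := by
              intro h
              exact hM.1 (Subgroup.eq_top_of_card_eq M h)
            exact lt_of_le_of_ne (Nat.le_of_dvd Nat.card_pos h1) h2
          omega
        · exact isComplement'_subgroupOf hKS hSM
        · have h1 : Nat.card (K.subgroupOf M) ∣ Nat.card K := by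
            rw [← Subgroup.inf_subgroupOf_right]
            have h2 : Nat.card ((K ⊓ M).subgroupOf M) = Nat.card (K ⊓ M : Subgroup G) :=
              Nat.card_congr (Subgroup.subgroupOfEquivOfLe inf_le_right).toEquiv
            rw [h2]
            exact Subgroup.card_dvd_of_le inf_le_left
          exact Odd.of_dvd_nat hK h1
        · exact hS.congr (Subgroup.subgroupOfEquivOfLe hSM).symm
      -- an element `d` of `K` outside `M`
      have hd : ∃ d ∈ K, d ∉ M := by
        by_contra hcon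
        push Not at hcon
        apply hM.1
        rw [eq_top_iff, ← hKS.sup_eq_top]
        exact sup_le hcon hSM
      obtain ⟨d, hdK, hdM⟩ := hd
      obtain ⟨ρ, hρ, _⟩ := id hS
      obtain ⟨ψ, h1, h2, h3⟩ := exists_normalised_complete hρ
      obtain ⟨f, hf, hfM, hfK⟩ := exists_orth_of_factorisation K S hKS hK h1 h2 h3
      exact rigid_of_coatom hM hMR hf (hfM M hSM) hdM (hfK d hdK)

theorem rigid_of_factorisation {G : Type u} [Group G] [Finite G]
    (K S : Subgroup G) (hKS : Subgroup.IsComplement' K S) (hK : Odd (Nat.card K))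
    (hS : Rigid S) : Rigid G :=
  rigid_of_factorisation_aux _ G K S le_rfl hKS hK hS

/-- Every finite group of odd order has a rigid orthomorphism. -/
theorem rigid_of_odd {G : Type u} [Group G] [Finite G] (h : Odd (Nat.card G)) : Rigid G := by
  apply rigid_of_factorisation (⊤ : Subgroup G) ⊥
  · exact Subgroup.isComplement'_top_bot
  · rw [Nat.card_congr Subgroup.topEquiv.toEquiv]; exact h
  · exact rigid_of_subsingleton _

end MP8306f4
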