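import Pool.Agent.Lib_MP_8306f4_co.Regular

/-!
# Groups with a cyclic Sylow 2-subgroup and a central involution

They have no transitive representation by a quasigroup.
-/

universe u v

set_option linter.unusedSectionVars false

namespace Pool.Agent.Lib_MP_8306f4_co

open Finset
open scoped Pointwise

/-- exponent function for a permutation all of whose cycles have length `n` -/
lemma exists_exponent {Q : Type v} (n : ℕ) (t : Equiv.Perm Q)
    (hfree : ∀ (k : ℤ) (x : Q), (t ^ k) x = x → (n : ℤ) ∣ k) :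
    ∃ E : Q → ZMod n, ∀ x, E (t x) = E x + 1 := by
  classical
  let r : Q → Q := fun x => (Quotient.mk (Equiv.Perm.SameCycle.setoid t) x).out
  have hr : ∀ x, ∃ k : ℤ, (t ^ k) (r x) = x := by
    intro x
    exact (Quotient.mk_out (s := Equiv.Perm.SameCycle.setoid t) x)
  choose k hk using hr
  refine ⟨fun x => (k x : ZMod n), fun x => ?_⟩
  have hrx : r (t x) = r x := by
    have : (Quotient.mk (Equiv.Perm.SameCycle.setoid t) (t x)) =
        (Quotient.mk (Equiv.Perm.SameCycle.setoid t) x) := by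
      apply Quotient.sound
      exact ⟨-1, by simp⟩
    simp only [r, this]
  have h1 : (t ^ (k (t x))) (r x) = t ((t ^ (k x)) (r x)) := by
    rw [hk x, ← hrx, hk (t x)]
  have h2 : (t ^ (k (t x) - (k x + 1))) (r x) = r x := by
    have e1 : t ((t ^ (k x)) (r x)) = (t ^ (k x + 1)) (r x) := by
      rw [add_comm, zpow_add, zpow_one]
      rfl
    rw [e1] at h1
    rw [sub_eq_add_neg, add_comm, zpow_add, Equiv.Perm.mul_apply, h1, ← Equiv.Perm.mul_apply,
      ← zpow_add]
    simp
  have h3 := hfree _ _ h2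
  have h4 := (ZMod.intCast_zmod_eq_zero_iff_dvd _ n).2 h3
  push_cast at h4
  linear_combination h4

lemma sum_zmod (n : ℕ) [NeZero n] : (∑ i : ZMod n, i) = ((∑ k ∈ range n, k : ℕ) : ZMod n) := by
  obtain ⟨m, rfl⟩ : ∃ m, n = m + 1 := ⟨n - 1, by have := NeZero.pos n; omega⟩
  rw [← Fin.sum_univ_eq_sum_range]
  push_cast
  refine Finset.sum_congr rfl fun i _ => ?_
  exact (ZMod.natCast_zmod_val (n := m + 1) i).symm

/-- the counting argument -/
lemma exponent_sum {Q : Type v} [Fintype Q] {op : Q → Q → Q} (hop : IsQuasigroup op) (n : ℕ)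
    [NeZero n] (t : Equiv.Perm Q) (ht : t ∈ autGroup op) (htn : t ^ n = 1) (E : Q → ZMod n)
    (hE : ∀ x, E (t x) = E x + 1) :
    ∃ m : ℕ, Fintype.card Q = n * m ∧ ((m * (m * ∑ k ∈ range n, k) : ℕ) : ZMod n) = 0 := by
  classical
  have hEk : ∀ (k : ℕ) x, E ((t ^ k) x) = E x + k := by
    intro k
    induction k with
    | zero => intro x; simp
    | succ k ih =>
      intro x
      rw [pow_succ', Equiv.Perm.mul_apply, hE, ih]
      push_cast
      ring
  let s : ZMod n → Equiv.Perm Q := fun i => t ^ i.val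
  have hs : ∀ i x, E (s i x) = E x + i := by
    intro i x
    rw [hEk, ZMod.natCast_zmod_val]
  have hsadd : ∀ i j x, s i (s j x) = s (i + j) x := by
    intro i j x
    rw [← Equiv.Perm.mul_apply]
    have : s i * s j = s (i + j) := by
      simp only [s]
      rw [← pow_add, ZMod.val_add, ← pow_eq_pow_mod _ htn]
    rw [this]
  have hs0 : ∀ x, s 0 x = x := by
    intro x
    simp [s]
  have hsop : ∀ i x y, s i (op x y) = op (s i x) (s i y) := by
    intro i
    have : s i ∈ autGroup op := Subgroup.pow_mem _ ht _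
    exact this
  let X : ZMod n → Finset Q := fun i => univ.filter (fun x => E x = i)
  have hX : ∀ i, (X i).card = (X 0).card := by
    intro i
    refine Finset.card_bij' (fun x _ => s (-i) x) (fun x _ => s i x) ?_ ?_ ?_ ?_
    · intro x hx
      simp only [X, mem_filter, mem_univ, true_and] at hx ⊢
      rw [hs, hx]
      simp
    · intro x hx
      simp only [X, mem_filter, mem_univ, true_and] at hx ⊢
      rw [hs, hx]
      simp
    · intro x _
      rw [hsadd]
      simp [hs0]
    · intro x _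
      rw [hsadd]
      simp [hs0]
  refine ⟨(X 0).card, ?_, ?_⟩
  · have h1 : Fintype.card Q = ∑ i : ZMod n, (X i).card := by
      rw [← Finset.card_univ]
      exact Finset.card_eq_sum_card_fiberwise (f := E) (t := univ) (fun _ _ => mem_coe.2 (mem_univ _))
    rw [h1, Finset.sum_congr rfl (fun i _ => hX i)]
    simp [ZMod.card]
  · have hsum : ∑ x, E x = ((X 0).card : ZMod n) * ∑ i : ZMod n, i := by
      rw [← Finset.sum_fiberwise (s := univ) (g := E) (f := E), Finset.mul_sum]
      refine Finset.sum_congr rfl fun i _ => ?_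
      rw [Finset.sum_congr rfl (g := fun _ => i) (fun x hx => (mem_filter.1 hx).2)]
      rw [Finset.sum_const, nsmul_eq_mul, ← hX i]
    -- first evaluation
    have e1 : ∑ p ∈ X 0 ×ˢ univ, (E (op p.1 p.2) - E p.2) = 0 := by
      rw [Finset.sum_product]
      refine Finset.sum_eq_zero fun x _ => ?_
      rw [Finset.sum_sub_distrib, sub_eq_zero]
      exact Function.Bijective.sum_comp (hop.1 x) E
    have e2 : ∑ p ∈ X 0 ×ˢ univ, (E (op p.1 p.2) - E p.2) =
        ∑ p ∈ univ ×ˢ X 0, (E (op p.1 p.2) - E p.2) := by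
      refine Finset.sum_bij' (fun p _ => (s (-E p.2) p.1, s (-E p.2) p.2))
        (fun p _ => (s (-E p.1) p.1, s (-E p.1) p.2)) ?_ ?_ ?_ ?_ ?_
      · intro p _
        simp only [X, mem_product, mem_filter, mem_univ, true_and]
        rw [hs]
        ring
      · intro p _
        simp only [X, mem_product, mem_filter, mem_univ, true_and, and_true]
        rw [hs]
        ring
      · intro p hp
        simp only [X, mem_product, mem_filter, mem_univ, true_and, and_true] at hp
        simp only [hsadd, hs, hp]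
        have : -(0 + -E p.2) + -E p.2 = 0 := by ring
        rw [this, hs0, hs0]
      · intro p hp
        simp only [X, mem_product, mem_filter, mem_univ, true_and] at hp
        simp only [hsadd, hs, hp]
        have : -(0 + -E p.1) + -E p.1 = 0 := by ring
        rw [this, hs0, hs0]
      · intro p _
        simp only
        rw [← hsop, hs, hs]
        ring
    have e3 : ∑ p ∈ univ ×ˢ X 0, (E (op p.1 p.2) - E p.2) =
        ((X 0).card : ZMod n) * ∑ x, E x := by
      rw [Finset.sum_product_right, ← nsmul_eq_mul, ← Finset.sum_const]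
      refine Finset.sum_congr rfl fun y hy => ?_
      have hy0 : E y = 0 := (mem_filter.1 hy).2
      simp only [hy0, sub_zero]
      exact Function.Bijective.sum_comp (hop.2 y) E
    rw [e2, e3, hsum, sum_zmod] at e1
    push_cast at e1 ⊢
    exact e1

/-- the common fixed points are closed under the operation -/
lemma fix_closed {Q : Type v} {op : Q → Q → Q} {τ : Equiv.Perm Q} (hτ : τ ∈ autGroup op)
    {x y : Q} (hx : τ x = x) (hy : τ y = y) : τ (op x y) = op x y := by
  rw [hτ, hx, hy]

lemma card_dvd_of_free {Q : Type v} [Fintype Q] (n : ℕ) [NeZero n] (t : Equiv.Perm Q)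
    (hfree : ∀ (k : ℤ) (x : Q), (t ^ k) x = x → (n : ℤ) ∣ k) : n ∣ Fintype.card Q := by
  classical
  obtain ⟨E, hE⟩ := exists_exponent n t hfree
  have hEk : ∀ (k : ℕ) x, E ((t ^ k) x) = E x + k := by
    intro k
    induction k with
    | zero => intro x; simp
    | succ k ih =>
      intro x
      rw [pow_succ', Equiv.Perm.mul_apply, hE, ih]
      push_cast
      ring
  let X : ZMod n → Finset Q := fun i => univ.filter (fun x => E x = i)
  have hle : ∀ i j, (X i).card ≤ (X j).card := by
    intro i j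
    refine Finset.card_le_card_of_injOn (fun x => (t ^ (j - i).val) x) ?_
      (Equiv.injective _).injOn
    intro x hx
    simp only [X, coe_filter, mem_univ, true_and, Set.mem_ofPred_eq] at hx ⊢
    rw [hEk, ZMod.natCast_zmod_val, hx]
    ring
  have hX : ∀ i, (X i).card = (X 0).card := fun i => le_antisymm (hle _ _) (hle _ _)
  refine ⟨(X 0).card, ?_⟩
  have h1 : Fintype.card Q = ∑ i : ZMod n, (X i).card := by
    rw [← Finset.card_univ]
    exact Finset.card_eq_sum_card_fiberwise (f := E) (t := univ) (fun _ _ => mem_coe.2 (mem_univ _))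
  rw [h1, Finset.sum_congr rfl (fun i _ => hX i)]
  simp [ZMod.card]

lemma even_of_dvd {c m : ℕ} (hc : c ≠ 0)
    (h : ((m * (m * ∑ k ∈ range (2 ^ c), k) : ℕ) : ZMod (2 ^ c)) = 0) : 2 ∣ m := by
  rw [ZMod.natCast_eq_zero_iff] at h
  have hg : (∑ k ∈ range (2 ^ c), k) * 2 = 2 ^ c * (2 ^ c - 1) := Finset.sum_range_id_mul_two _
  have h7 : 2 ^ c * 2 ∣ 2 ^ c * (m * m * (2 ^ c - 1)) := by
    obtain ⟨d, hd⟩ := h
    refine ⟨d, ?_⟩
    calc 2 ^ c * (m * m * (2 ^ c - 1)) = m * m * (2 ^ c * (2 ^ c - 1)) := by ring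
      _ = m * (m * ∑ k ∈ range (2 ^ c), k) * 2 := by rw [← hg]; ring
      _ = 2 ^ c * 2 * d := by rw [hd]; ring
  have h8 : 2 ∣ m * m * (2 ^ c - 1) := Nat.dvd_of_mul_dvd_mul_left (by positivity) h7
  rcases (Nat.Prime.dvd_mul Nat.prime_two).1 h8 with h9 | h9
  · rcases (Nat.Prime.dvd_mul Nat.prime_two).1 h9 with h10 | h10 <;> exact h10
  · have : 2 ∣ 2 ^ c := dvd_pow_self 2 hc
    have h11 : 1 ≤ 2 ^ c := Nat.one_le_two_pow
    omega

/-- Let a finite group act transitively on a quasigroup `Q` by automorphisms, with cyclic Sylow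
2-subgroup generated by `t` of order `2 ^ a`.  Then `Q` has odd order. -/
theorem odd_degree {G : Type u} [Group G] [Finite G] {Q : Type v} [Fintype Q] {op : Q → Q → Q}
    (hQ : IsQuasigroup op) (ψ : G →* Equiv.Perm Q) (hψ : ∀ g, ψ g ∈ autGroup op)
    (htr : ∀ x y : Q, ∃ g : G, ψ g x = y) (q : Q) (a : ℕ) (t : G) (ht : orderOf t = 2 ^ a)
    (hcard : (Nat.card G).factorization 2 = a) : Odd (Fintype.card Q) := by
  classical
  have hQpos : 0 < Fintype.card Q := Fintype.card_pos_iff.2 ⟨q⟩
  have hGpos : 0 < Nat.card G := Nat.card_pos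
  let c := (Fintype.card Q).factorization 2
  -- the stabilizers
  let stab : Q → Subgroup G := fun x =>
    { carrier := {g | ψ g x = x}
      one_mem' := by simp
      mul_mem' := by
        intro g h hg hh
        change ψ (g * h) x = x
        rw [map_mul, Equiv.Perm.mul_apply]
        change ψ h x = x at hh
        change ψ g x = x at hg
        rw [hh, hg]
      inv_mem' := by
        intro g hg
        change ψ g⁻¹ x = x
        change ψ g x = x at hg
        rw [map_inv, Equiv.Perm.inv_eq_iff_eq, hg] }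
  have hindex : ∀ x, Fintype.card Q * Nat.card (stab x) = Nat.card G := by
    intro x
    let _ : MulAction G Q :=
      { smul := fun g y => ψ g y
        one_smul := by intro y; change ψ 1 y = y; simp
        mul_smul := by
          intro g h y
          change ψ (g * h) y = ψ g (ψ h y)
          rw [map_mul, Equiv.Perm.mul_apply] }
    have : MulAction.IsPretransitive G Q := ⟨fun x y => htr x y⟩
    have h1 : MulAction.stabilizer G x = stab x := by
      ext g
      rfl
    rw [← h1, ← Nat.card_eq_fintype_card, ← MulAction.index_stabilizer_of_transitive G x,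
      Subgroup.index_mul_card]
  have hca : c ≤ a := by
    rw [← hcard]
    refine (Nat.Prime.pow_dvd_iff_le_factorization Nat.prime_two hGpos.ne').1 ?_
    refine dvd_trans (Nat.ordProj_dvd _ _) ⟨_, (hindex q).symm⟩
  have hstab : ∀ x, (Nat.card (stab x)).factorization 2 = a - c := by
    intro x
    have h1 := congrArg (fun n => n.factorization 2) (hindex x)
    rw [Nat.factorization_mul hQpos.ne' Nat.card_pos.ne', Finsupp.add_apply, hcard] at h1
    change c + _ = a at h1
    omega
  let τ : Equiv.Perm Q := ψ t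
  have hτ : τ ∈ autGroup op := hψ t
  have hτk : ∀ k : ℤ, τ ^ k = ψ (t ^ k) := fun k => (map_zpow ψ t k).symm
  have hfree : ∀ (k : ℤ) (x : Q), (τ ^ k) x = x → ((2 ^ c : ℕ) : ℤ) ∣ k := by
    intro k x hx
    rw [hτk] at hx
    have h1 : orderOf (t ^ k) ∣ Nat.card (stab x) := by
      have h2 : t ^ k ∈ stab x := hx
      have := orderOf_dvd_natCard (⟨t ^ k, h2⟩ : stab x)
      rwa [← Subgroup.orderOf_coe] at this
    have h2 : orderOf (t ^ k) ∣ 2 ^ a := by
      rw [← ht]
      exact orderOf_dvd_of_pow_eq_one (by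
        rw [← zpow_natCast, ← zpow_mul, mul_comm, zpow_mul, zpow_natCast, pow_orderOf_eq_one,
          one_zpow])
    obtain ⟨j, _, hj⟩ := (Nat.dvd_prime_pow Nat.prime_two).1 h2
    have h3 : j ≤ a - c := by
      rw [← hstab x]
      rw [hj] at h1
      exact (Nat.Prime.pow_dvd_iff_le_factorization Nat.prime_two Nat.card_pos.ne').1 h1
    have h4 : (t ^ k) ^ (2 ^ (a - c)) = 1 := by
      rw [← orderOf_dvd_iff_pow_eq_one, hj]
      exact pow_dvd_pow 2 h3
    have h5 : ((2 ^ a : ℕ) : ℤ) ∣ k * (2 ^ (a - c) : ℕ) := by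
      rw [← ht, orderOf_dvd_iff_zpow_eq_one, zpow_mul, zpow_natCast]
      exact h4
    have h6 : ((2 ^ a : ℕ) : ℤ) = (2 ^ c : ℕ) * (2 ^ (a - c) : ℕ) := by
      rw [← Nat.cast_mul, ← pow_add]
      congr 2
      omega
    rw [h6] at h5
    exact Int.dvd_of_mul_dvd_mul_right (by positivity) h5
  have hτa : ∀ (i : ℤ), τ ^ (((2 ^ a : ℕ) : ℤ) * i) = 1 := by
    intro i
    have : t ^ (((2 ^ a : ℕ) : ℤ) * i) = 1 := by
      rw [← orderOf_dvd_iff_zpow_eq_one, ht]
      exact dvd_mul_right _ _
    rw [hτk, this, map_one]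
  -- the fixed points of `τ ^ (2 ^ c)`
  let ρ : Equiv.Perm Q := τ ^ (2 ^ c)
  have hρ : ρ ∈ autGroup op := Subgroup.pow_mem _ hτ _
  have hρτ : ∀ x, ρ (τ x) = τ (ρ x) := by
    intro x
    simp only [ρ, ← Equiv.Perm.mul_apply]
    rw [← pow_succ, ← pow_succ']
  have hSiff : ∀ x, ρ (τ x) = τ x ↔ ρ x = x := by
    intro x
    rw [hρτ]
    exact ⟨fun h => τ.injective h, fun h => by rw [h]⟩
  let S := {x : Q // ρ x = x}
  let S' := {x : Q // ¬ ρ x = x}
  have hcardS : Fintype.card Q = Fintype.card S + Fintype.card S' := by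
    have := Fintype.card_congr (Equiv.sumCompl (fun x : Q => ρ x = x))
    rw [Fintype.card_sum] at this
    exact this.symm
  let τS : Equiv.Perm S := τ.subtypePerm (fun x => hSiff x)
  let τS' : Equiv.Perm S' := τ.subtypePerm (fun x => not_congr (hSiff x))
  have hτSk : ∀ (k : ℤ) (x : S), (((τS ^ k) x : S) : Q) = (τ ^ k) x := by
    intro k x
    exact congrArg (fun σ : Equiv.Perm S => ((σ x : S) : Q))
      (Equiv.Perm.subtypePerm_zpow (p := fun y => ρ y = y) τ k (fun y => hSiff y))
  have hτSk' : ∀ (k : ℤ) (x : S'), (((τS' ^ k) x : S') : Q) = (τ ^ k) x := by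
    intro k x
    exact congrArg (fun σ : Equiv.Perm S' => ((σ x : S') : Q))
      (Equiv.Perm.subtypePerm_zpow (p := fun y => ¬ ρ y = y) τ k (fun y => not_congr (hSiff y)))
  have hfreeS : ∀ (k : ℤ) (x : S), (τS ^ k) x = x → ((2 ^ c : ℕ) : ℤ) ∣ k := by
    intro k x hx
    apply hfree k x
    rw [← hτSk, hx]
  have hfreeS' : ∀ (k : ℤ) (x : S'), (τS' ^ k) x = x → ((2 ^ (c + 1) : ℕ) : ℤ) ∣ k := by
    intro k x hx
    have h1 : (τ ^ k) x = x := by rw [← hτSk', hx]
    by_contra hk
    apply x.2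
    have h2 := hfree k x h1
    -- Bezout
    have h3 : ∃ j i : ℤ, ((2 ^ c : ℕ) : ℤ) = k * j + (2 ^ a : ℕ) * i := by
      have h4 : Int.gcd k ((2 ^ a : ℕ) : ℤ) ∣ 2 ^ a := by
        exact_mod_cast (Int.gcd_dvd_right k ((2 ^ a : ℕ) : ℤ))
      obtain ⟨b, hb, hb'⟩ := (Nat.dvd_prime_pow Nat.prime_two).1 h4
      have hbc : b ≤ c := by
        by_contra h
        apply hk
        refine dvd_trans ?_ (Int.gcd_dvd_left k ((2 ^ a : ℕ) : ℤ))
        rw [hb']
        exact_mod_cast pow_dvd_pow 2 (by omega)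
      have h5 : ((Int.gcd k ((2 ^ a : ℕ) : ℤ) : ℕ) : ℤ) ∣ ((2 ^ c : ℕ) : ℤ) := by
        rw [hb']
        exact_mod_cast pow_dvd_pow 2 hbc
      obtain ⟨d, hd⟩ := h5
      rw [Int.gcd_eq_gcd_ab] at hd
      refine ⟨Int.gcdA k ((2 ^ a : ℕ) : ℤ) * d, Int.gcdB k ((2 ^ a : ℕ) : ℤ) * d, ?_⟩
      rw [hd]
      ring
    obtain ⟨j, i, hji⟩ := h3
    change (τ ^ (2 ^ c)) (x : Q) = x
    rw [← zpow_natCast, hji, zpow_add, hτa, mul_one, zpow_mul]
    exact Equiv.Perm.zpow_apply_eq_self_of_apply_eq_self h1 j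
  have : NeZero (2 ^ c) := ⟨by positivity⟩
  have : NeZero (2 ^ (c + 1)) := ⟨by positivity⟩
  have hS' : 2 ^ (c + 1) ∣ Fintype.card S' := card_dvd_of_free _ τS' hfreeS'
  -- the quasigroup `S`
  let opS : S → S → S := fun x y => ⟨op x y, fix_closed hρ x.2 y.2⟩
  have hopS : IsQuasigroup opS := by
    constructor
    · intro x
      refine Finite.injective_iff_bijective.1 ?_
      intro y y' h
      exact Subtype.ext ((hQ.1 x).1 (congrArg Subtype.val h))
    · intro x
      refine Finite.injective_iff_bijective.1 ?_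
      intro y y' h
      exact Subtype.ext ((hQ.2 x).1 (congrArg Subtype.val h))
  have hτSaut : τS ∈ autGroup opS := by
    intro x y
    exact Subtype.ext (hτ x y)
  have hτSn : τS ^ (2 ^ c) = 1 := by
    ext x
    have := hτSk ((2 ^ c : ℕ) : ℤ) x
    rw [zpow_natCast, zpow_natCast] at this
    rw [this]
    exact x.2
  obtain ⟨E, hE⟩ := exists_exponent (2 ^ c) τS hfreeS
  obtain ⟨m, hm1, hm2⟩ := exponent_sum hopS (2 ^ c) τS hτSaut hτSn E hE
  by_contra hodd
  have hc0 : c ≠ 0 := by
    intro h0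
    apply hodd
    rw [← Nat.not_even_iff_odd, even_iff_two_dvd]
    intro h2
    have := (Nat.Prime.pow_dvd_iff_le_factorization Nat.prime_two hQpos.ne' (k := 1)).1
      (by simpa using h2)
    change 1 ≤ c at this
    omega
  obtain ⟨m', rfl⟩ := even_of_dvd hc0 hm2
  obtain ⟨l, hl⟩ := hS'
  have h8 : 2 ^ (c + 1) ∣ Fintype.card Q := by
    rw [hcardS, hm1, hl]
    exact ⟨m' + l, by ring⟩
  have h9 := (Nat.Prime.pow_dvd_iff_le_factorization Nat.prime_two hQpos.ne').1 h8
  change c + 1 ≤ c at h9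
  omega

end Pool.Agent.Lib_MP_8306f4_co
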