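import Mathlib

/-!
# Orthomorphisms of finite groups without invariant subgroups

Every finite group which has an orthomorphism has one without proper invariant subgroup.
-/

universe u

set_option linter.unusedSectionVars false

namespace Pool.Agent.Lib_MP_8306f4_co

/-- An orthomorphism of a group: `f` and `x ↦ x⁻¹ f(x)` are bijections. -/
def IsOrth {G : Type*} [Group G] (f : G → G) : Prop :=
  Function.Bijective f ∧ Function.Bijective (fun x => x⁻¹ * f x)

/-- `f` maps the subgroup `H` into the coset `H f(1)`. -/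
def Blk {G : Type*} [Group G] (f : G → G) (H : Subgroup G) : Prop :=
  ∀ h ∈ H, f h * (f 1)⁻¹ ∈ H

section

variable {G : Type*} [Group G] [Finite G]

lemma surjOn_self {g : G → G} (hg : Function.Injective g) {K : Set G}
    (h : ∀ x ∈ K, g x ∈ K) : Set.SurjOn g K K := by
  have h1 : g '' K ⊆ K := by
    rintro _ ⟨x, hx, rfl⟩
    exact h x hx
  have h2 : g '' K = K := by
    refine Set.eq_of_subset_of_ncard_le h1 ?_ (Set.toFinite _)
    rw [Set.ncard_image_of_injective _ hg]
  intro x hx
  rwa [h2]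

lemma mem_iff_of_inj {g : G → G} (hg : Function.Injective g) {K : Set G}
    (h : ∀ x ∈ K, g x ∈ K) (x : G) : g x ∈ K ↔ x ∈ K := by
  refine ⟨fun hx => ?_, h x⟩
  obtain ⟨y, hy, hyx⟩ := surjOn_self hg h hx
  rwa [← hg hyx]

lemma IsOrth.mul_right {f : G → G} (hf : IsOrth f) (c : G) : IsOrth (fun x => f x * c) := by
  refine ⟨(Group.mulRight_bijective c).comp hf.1, ?_⟩
  have : (fun x => x⁻¹ * (f x * c)) = (fun x => x * c) ∘ (fun x => x⁻¹ * f x) := by
    ext x
    simp [mul_assoc]
  rw [this]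
  exact (Group.mulRight_bijective c).comp hf.2

lemma blk_mul_right {f : G → G} (c : G) (H : Subgroup G) :
    Blk (fun x => f x * c) H ↔ Blk f H := by
  unfold Blk
  simp [mul_assoc]

open Classical in
/-- replace `f` by `φ` on the subgroup `K`. -/
noncomputable def glue (f : G → G) (K : Subgroup G) (φ : K → K) : G → G :=
  fun x => if h : x ∈ K then (φ ⟨x, h⟩ : G) else f x

lemma glue_mem {f : G → G} {K : Subgroup G} {φ : K → K} {x : G} (h : x ∈ K) :
    glue f K φ x = (φ ⟨x, h⟩ : G) := by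
  simp [glue, h]

lemma glue_not_mem {f : G → G} {K : Subgroup G} {φ : K → K} {x : G} (h : x ∉ K) :
    glue f K φ x = f x := by
  simp [glue, h]

lemma glue_mem_iff {f : G → G} (hf : Function.Injective f) {K : Subgroup G}
    (hK : ∀ x ∈ K, f x ∈ K) {φ : K → K} {x : G} : glue f K φ x ∈ K ↔ x ∈ K := by
  by_cases h : x ∈ K
  · simp [glue_mem h, h]
  · rw [glue_not_mem h]
    exact mem_iff_of_inj (K := (K : Set G)) hf hK x

lemma glue_injective {f : G → G} (hf : Function.Injective f) {K : Subgroup G}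
    (hK : ∀ x ∈ K, f x ∈ K) {φ : K → K} (hφ : Function.Injective φ) :
    Function.Injective (glue f K φ) := by
  intro x y hxy
  by_cases hx : x ∈ K
  · have hy : y ∈ K := by
      rw [← glue_mem_iff hf hK (φ := φ), ← hxy, glue_mem_iff hf hK]
      exact hx
    rw [glue_mem hx, glue_mem hy] at hxy
    have := hφ (Subtype.ext hxy)
    exact congrArg Subtype.val this
  · have hy : y ∉ K := by
      intro hy
      apply hx
      rw [← glue_mem_iff hf hK (φ := φ), hxy, glue_mem_iff hf hK]
      exact hy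
    rw [glue_not_mem hx, glue_not_mem hy] at hxy
    exact hf hxy

lemma glue_isOrth {f : G → G} (hf : IsOrth f) {K : Subgroup G}
    (hK : ∀ x ∈ K, f x ∈ K) {φ : K → K} (hφ : IsOrth φ) : IsOrth (glue f K φ) := by
  refine ⟨Finite.injective_iff_bijective.1 (glue_injective hf.1.1 hK hφ.1.1),
    Finite.injective_iff_bijective.1 ?_⟩
  have hK' : ∀ x ∈ K, x⁻¹ * f x ∈ K := fun x hx => K.mul_mem (K.inv_mem hx) (hK x hx)
  have h := glue_injective (f := fun x => x⁻¹ * f x) hf.2.1 hK' (φ := fun x => x⁻¹ * φ x) hφ.2.1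
  have he : (fun x => x⁻¹ * glue f K φ x) = glue (fun x => x⁻¹ * f x) K (fun x => x⁻¹ * φ x) := by
    ext x
    by_cases hx : x ∈ K
    · simp [glue_mem hx]
    · simp [glue_not_mem hx]
  rw [he]
  exact h

end

/-- The key lemma: a nontrivial finite group having an orthomorphism has an orthomorphism `f` and an
element `x ≠ 1` such that no proper subgroup `H` containing `x` satisfies `f(H) = H f(1)`. -/
theorem key : ∀ (n : ℕ) (G : Type u) [Group G] [Finite G], Nat.card G = n → Nontrivial G →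
    (∃ f : G → G, IsOrth f) →
    ∃ f : G → G, IsOrth f ∧ ∃ x : G, x ≠ 1 ∧ ∀ H : Subgroup G, Blk f H → x ∈ H → H = ⊤ := by
  intro n
  induction n using Nat.strong_induction_on with
  | _ n ih =>
  intro G _ _ hn hnt hex
  by_contra hcon
  push Not at hcon
  -- the family of subgroups
  let S : Set (Subgroup G) := {K | K ≠ ⊤ ∧ K ≠ ⊥ ∧ ∃ f : G → G, IsOrth f ∧ Blk f K}
  have hSne : S.Nonempty := by
    obtain ⟨f, hf⟩ := hex
    obtain ⟨x, hx⟩ := exists_ne (1 : G)
    obtain ⟨H, h1, h2, h3⟩ := hcon f hf x hx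
    refine ⟨H, h3, ?_, f, hf, h1⟩
    rintro rfl
    exact hx (Subgroup.mem_bot.1 h2)
  obtain ⟨K, hKS, hKmax⟩ := (Set.toFinite S).exists_maximal hSne
  obtain ⟨hKtop, hKbot, f, hf, hfK⟩ := hKS
  -- normalise
  set g : G → G := fun x => f x * (f 1)⁻¹ with hg
  have hgo : IsOrth g := hf.mul_right _
  have hgK : ∀ x ∈ K, g x ∈ K := hfK
  -- the restriction
  have hrestr : IsOrth (fun k : K => (⟨g k, hgK k k.2⟩ : K)) := by
    refine ⟨Finite.injective_iff_bijective.1 ?_, Finite.injective_iff_bijective.1 ?_⟩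
    · intro a b hab
      exact Subtype.ext (hgo.1.1 (congrArg Subtype.val hab))
    · intro a b hab
      exact Subtype.ext (hgo.2.1 (congrArg Subtype.val hab))
  have hKcard : Nat.card K < n := by
    rw [← hn]
    exact lt_of_le_of_ne (Subgroup.card_le_card_group K)
      (fun h => hKtop (Subgroup.eq_top_of_card_eq K h))
  have hKnt : Nontrivial K := (Subgroup.nontrivial_iff_ne_bot K).2 hKbot
  obtain ⟨φ, hφ, x₁, hx₁, hgood⟩ := ih _ hKcard K rfl hKnt ⟨_, hrestr⟩
  obtain ⟨y, hyK⟩ : ∃ y, y ∉ K := by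
    by_contra h
    push Not at h
    exact hKtop (eq_top_iff.2 (fun x _ => h x))
  have hy1 : y ≠ 1 := fun h => hyK (h ▸ K.one_mem)
  -- the shifted orthomorphisms
  let φc : K → K → K := fun c k => φ k * c
  let fc : K → G → G := fun c => glue g K (φc c)
  have hfc : ∀ c, IsOrth (fc c) := fun c => glue_isOrth hgo hgK (hφ.mul_right c)
  choose Hc hc1 hc2 hc3 using fun c => hcon (fc c) (hfc c) y hy1
  have hsurj : ∀ c, ∀ m : G, m * (fc c 1)⁻¹ ∈ Hc c → ∃ h ∈ Hc c, fc c h = m := by
    intro c m hm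
    have hinj : Function.Injective (fun h => fc c h * (fc c 1)⁻¹) :=
      ((hfc c).mul_right _).1.1
    obtain ⟨h, hh, he⟩ := surjOn_self hinj (K := (Hc c : Set G)) (hc1 c) hm
    exact ⟨h, hh, mul_right_cancel he⟩
  have hfcy : ∀ c, fc c y = g y := fun c => glue_not_mem hyK
  have hyc : ∀ c, g y * (fc c 1)⁻¹ ∈ Hc c := by
    intro c
    have := hc1 c y (hc2 c)
    rwa [hfcy] at this
  let E : Subgroup G := ⨅ c, Hc c
  have hE : ∀ {x}, x ∈ E ↔ ∀ c, x ∈ Hc c := by
    intro x
    exact Subgroup.mem_iInf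
  -- there is `k₀` in `K ∩ E g(y)`
  obtain ⟨k₀, hk₀K, hk₀E⟩ : ∃ k₀ ∈ K, k₀ * (g y)⁻¹ ∈ E := by
    by_contra hno
    push Not at hno
    let R : Set G := {m | m * (g y)⁻¹ ∈ E}
    have hR : R.ncard = (E : Set G).ncard := by
      have : R = (fun e => e * g y) '' (E : Set G) := by
        ext m
        constructor
        · intro hm
          exact ⟨m * (g y)⁻¹, hm, by simp⟩
        · rintro ⟨e, he, rfl⟩
          change e * g y * (g y)⁻¹ ∈ E
          simpa using he
      rw [this, Set.ncard_image_of_injective _ (mul_left_injective (g y))]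
    have hsub : R ⊆ g '' ((E : Set G) \ (K : Set G)) := by
      intro m hm
      have hmK : m ∉ K := fun h => hno m h hm
      obtain ⟨n', hn'⟩ := hgo.1.2 m
      have hn'K : n' ∉ K := fun h => hmK (hn' ▸ hgK n' h)
      refine ⟨n', ⟨?_, hn'K⟩, hn'⟩
      change n' ∈ E
      rw [hE]
      intro c
      have h1 : m * (fc c 1)⁻¹ ∈ Hc c := by
        have := (Hc c).mul_mem (hE.1 hm c) (hyc c)
        simpa [mul_assoc] using this
      obtain ⟨h, hh, he⟩ := hsurj c m h1
      have hhK : h ∉ K := by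
        intro h'
        apply hmK
        rw [← he]
        change glue g K (φc c) h ∈ K
        rw [glue_mem h']
        exact (φc c ⟨h, h'⟩).2
      have he' : g h = m := by
        rw [← he]
        exact (glue_not_mem hhK).symm
      have : h = n' := hgo.1.1 (he'.trans hn'.symm)
      rwa [← this]
    have h1 : R.ncard ≤ ((E : Set G) \ (K : Set G)).ncard :=
      le_trans (Set.ncard_le_ncard hsub (Set.toFinite _)) (Set.ncard_image_le (Set.toFinite _))
    have h2 : ((E : Set G) \ (K : Set G)).ncard < (E : Set G).ncard := by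
      refine Set.ncard_lt_ncard ?_ (Set.toFinite _)
      refine ⟨Set.sdiff_subset, fun h => ?_⟩
      exact (h (show (1 : G) ∈ (E : Set G) from E.one_mem)).2 K.one_mem
    omega
  -- choose the shift
  let c : K := (φ x₁)⁻¹ * ⟨k₀, hk₀K⟩
  have hcx : φc c x₁ = ⟨k₀, hk₀K⟩ := by
    change φ x₁ * ((φ x₁)⁻¹ * ⟨k₀, hk₀K⟩) = _
    simp
  have hk₀H : k₀ * (fc c 1)⁻¹ ∈ Hc c := by
    have := (Hc c).mul_mem (hE.1 hk₀E c) (hyc c)
    simpa [mul_assoc] using this
  obtain ⟨d, hd, hde⟩ := hsurj c k₀ hk₀H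
  have hfcx : fc c (x₁ : G) = k₀ := by
    change glue g K (φc c) (x₁ : G) = k₀
    rw [glue_mem x₁.2]
    exact congrArg Subtype.val hcx
  have hdx : d = (x₁ : G) := (hfc c).1.1 (hde.trans hfcx.symm)
  have hx₁H : (x₁ : G) ∈ Hc c := hdx ▸ hd
  have hDtop : (Hc c).subgroupOf K = ⊤ := by
    apply hgood
    · rw [← blk_mul_right c]
      intro h hh
      rw [Subgroup.mem_subgroupOf] at hh ⊢
      have := hc1 c _ hh
      have e1 : fc c (h : G) = ((φ h * c : K) : G) := glue_mem h.2
      have e2 : fc c 1 = ((φ 1 * c : K) : G) := glue_mem K.one_mem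
      rw [e1, e2] at this
      simpa using this
    · rw [Subgroup.mem_subgroupOf]
      exact hx₁H
  have hKle : K ≤ Hc c := Subgroup.subgroupOf_eq_top.1 hDtop
  have hHS : Hc c ∈ S := by
    refine ⟨hc3 c, ?_, fc c, hfc c, hc1 c⟩
    intro h
    exact hKbot (eq_bot_iff.2 (h ▸ hKle))
  have := hKmax hHS hKle
  exact hyK (this (hc2 c))

/-- A finite group with an orthomorphism has an orthomorphism without proper invariant subgroup. -/
theorem exists_no_invariant {G : Type u} [Group G] [Finite G] (h : ∃ f : G → G, IsOrth f) :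
    ∃ f : G → G, IsOrth f ∧ ∀ H : Subgroup G, (∀ x ∈ H, f x ∈ H) → H = ⊤ := by
  rcases subsingleton_or_nontrivial G with hs | hnt
  · obtain ⟨f, hf⟩ := h
    exact ⟨f, hf, fun H _ => Subsingleton.elim _ _⟩
  · obtain ⟨f, hf, x, hx, hgood⟩ := key _ G rfl hnt h
    refine ⟨fun z => f z * ((f 1)⁻¹ * x), hf.mul_right _, fun H hH => ?_⟩
    have hxH : x ∈ H := by
      have := hH 1 H.one_mem
      simpa using this
    refine hgood H ?_ hxH
    intro z hz
    have := H.mul_mem (hH z hz) (H.inv_mem hxH)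
    simpa [mul_assoc] using this

end Pool.Agent.Lib_MP_8306f4_co
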