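import Pool.Agent.Lib_MP_8306f4_co.Orth

/-!
# Regular representations of finite groups by quasigroups
-/

universe u v

set_option linter.unusedSectionVars false

namespace Pool.Agent.Lib_MP_8306f4_co

/-- The operation `op` makes `Q` a quasigroup: all left and right multiplications are bijective. -/
def IsQuasigroup {Q : Type v} (op : Q → Q → Q) : Prop :=
  (∀ a, Function.Bijective (fun x => op a x)) ∧ (∀ a, Function.Bijective (fun x => op x a))

/-- The automorphism group of the magma `(Q, op)`, as a group of permutations of `Q`. -/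
def autGroup {Q : Type v} (op : Q → Q → Q) : Subgroup (Equiv.Perm Q) where
  carrier := {σ | ∀ x y, σ (op x y) = op (σ x) (σ y)}
  one_mem' := fun _ _ => rfl
  mul_mem' := by
    intro σ τ hσ hτ x y
    change σ (τ (op x y)) = op (σ (τ x)) (σ (τ y))
    rw [hτ, hσ]
  inv_mem' := by
    intro σ hσ x y
    change σ⁻¹ (op x y) = op (σ⁻¹ x) (σ⁻¹ y)
    apply σ.injective
    rw [hσ]
    simp

/-- `G` is isomorphic to the automorphism group of a quasigroup, which acts transitively. -/
def HasTransitiveRep (G : Type u) [Group G] : Prop :=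
  ∃ (Q : Type u) (op : Q → Q → Q), Nonempty Q ∧ IsQuasigroup op ∧
    Nonempty (autGroup op ≃* G) ∧ ∀ x y : Q, ∃ σ ∈ autGroup op, σ x = y

/-- `G` is isomorphic to the automorphism group of a quasigroup, which acts regularly. -/
def HasRegularRep (G : Type u) [Group G] : Prop :=
  ∃ (Q : Type u) (op : Q → Q → Q), Nonempty Q ∧ IsQuasigroup op ∧
    Nonempty (autGroup op ≃* G) ∧ (∀ x y : Q, ∃ σ ∈ autGroup op, σ x = y) ∧
    ∀ σ ∈ autGroup op, ∀ x : Q, σ x = x → σ = 1

/-- the quasigroup attached to an orthomorphism -/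
def qop {G : Type u} [Group G] (f : G → G) (x y : G) : G := x * f (x⁻¹ * y)

lemma qop_isQuasigroup {G : Type u} [Group G] {f : G → G} (hf : IsOrth f) :
    IsQuasigroup (qop f) := by
  constructor
  · intro a
    have : (fun x => qop f a x) = (fun x => a * x) ∘ f ∘ (fun x => a⁻¹ * x) := rfl
    rw [this]
    exact (Group.mulLeft_bijective a).comp (hf.1.comp (Group.mulLeft_bijective a⁻¹))
  · intro a
    have : (fun x => qop f x a) =
        (fun x => a * x) ∘ (fun x => x⁻¹ * f x) ∘ (fun x => x⁻¹ * a) := by
      ext x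
      simp [qop, mul_assoc]
    rw [this]
    have hb : Function.Bijective (fun x : G => x⁻¹ * a) :=
      (Group.mulRight_bijective a).comp (inv_involutive.bijective)
    exact (Group.mulLeft_bijective a).comp (hf.2.comp hb)

/-- left translations are automorphisms -/
def leftT {G : Type u} [Group G] (f : G → G) : G →* autGroup (qop f) where
  toFun g := ⟨Equiv.mulLeft g, by
    intro x y
    simp [qop, mul_assoc]⟩
  map_one' := by
    ext x
    simp
  map_mul' a b := by
    ext x
    simp

lemma aut_eq_left {G : Type u} [Group G] {f : G → G}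
    (hinv : ∀ H : Subgroup G, (∀ x ∈ H, f x ∈ H) → H = ⊤)
    {σ : Equiv.Perm G} (hσ : σ ∈ autGroup (qop f)) (u : G) : σ u = σ 1 * u := by
  let T : Subgroup G :=
    { carrier := {u | ∀ σ ∈ autGroup (qop f), ∀ x, σ (x * u) = σ x * u}
      one_mem' := by
        intro σ _ x
        simp
      mul_mem' := by
        intro a b ha hb σ hσ x
        rw [← mul_assoc, hb σ hσ, ha σ hσ, mul_assoc]
      inv_mem' := by
        intro a ha σ hσ x
        have := ha σ hσ (x * a⁻¹)
        rw [inv_mul_cancel_right] at this
        rw [this, mul_inv_cancel_right] }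
  have hT : T = ⊤ := by
    apply hinv
    intro a ha σ hσ x
    have h1 := hσ x (x * a)
    have h2 : qop f x (x * a) = x * f a := by simp [qop]
    rw [h2, ha σ hσ x] at h1
    rw [h1]
    simp [qop]
  have : u ∈ T := hT ▸ Subgroup.mem_top u
  have := this σ hσ 1
  rwa [one_mul] at this

/-- the automorphism group is the group of left translations -/
noncomputable def autEquiv {G : Type u} [Group G] {f : G → G}
    (hinv : ∀ H : Subgroup G, (∀ x ∈ H, f x ∈ H) → H = ⊤) : G ≃* autGroup (qop f) :=
  MulEquiv.ofBijective (leftT f) (by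
    constructor
    · intro a b hab
      have := congrArg (fun τ : autGroup (qop f) => (τ : Equiv.Perm G) 1) hab
      simpa [leftT] using this
    · rintro ⟨σ, hσ⟩
      refine ⟨σ 1, ?_⟩
      ext x
      simp only [leftT, MonoidHom.coe_mk, OneHom.coe_mk, Equiv.coe_mulLeft]
      exact (aut_eq_left hinv hσ x).symm)

/-- A group with an orthomorphism without proper invariant subgroup has a regular
representation. -/
theorem hasRegularRep_of_no_invariant {G : Type u} [Group G] {f : G → G} (hf : IsOrth f)
    (hinv : ∀ H : Subgroup G, (∀ x ∈ H, f x ∈ H) → H = ⊤) : HasRegularRep G := by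
  refine ⟨G, qop f, ⟨1⟩, qop_isQuasigroup hf, ⟨(autEquiv hinv).symm⟩, ?_, ?_⟩
  · intro x y
    refine ⟨Equiv.mulLeft (y * x⁻¹), (leftT f (y * x⁻¹)).2, by simp⟩
  · intro σ hσ x hx
    have h := aut_eq_left hinv hσ
    have h1 : σ 1 = 1 := by
      have := h x
      rw [hx] at this
      simpa using this.symm
    ext y
    rw [h y, h1, one_mul]
    rfl

/-- A group with a regular representation by a quasigroup has an orthomorphism. -/
theorem exists_orth_of_hasRegularRep {G : Type u} [Group G] (h : HasRegularRep G) :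
    ∃ f : G → G, IsOrth f := by
  obtain ⟨Q, op, ⟨q⟩, hQ, ⟨e⟩, htr, hfree⟩ := h
  -- the action of `G`
  let a : G → Q → Q := fun g x => (e.symm g : Equiv.Perm Q) x
  have ha : ∀ g h x, a (g * h) x = a g (a h x) := by
    intro g h x
    simp [a]
  have ha1 : ∀ x, a 1 x = x := by
    intro x
    simp [a]
  have haop : ∀ g x y, a g (op x y) = op (a g x) (a g y) := by
    intro g x y
    exact (e.symm g).2 x y
  have hbij : Function.Bijective (fun g => a g q) := by
    constructor
    · intro g h hgh
      have h1 : a (h⁻¹ * g) q = q := by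
        rw [ha]
        change a g q = a h q at hgh
        rw [hgh, ← ha, inv_mul_cancel, ha1]
      have h2 := hfree _ (e.symm (h⁻¹ * g)).2 q h1
      have h3 : e.symm (h⁻¹ * g) = 1 := Subtype.ext h2
      have h4 : h⁻¹ * g = 1 := e.symm.injective (h3.trans (map_one e.symm).symm)
      exact (inv_mul_eq_one.1 h4).symm
    · intro y
      obtain ⟨σ, hσ, hy⟩ := htr q y
      refine ⟨e ⟨σ, hσ⟩, ?_⟩
      simp [a, hy]
  let E : G ≃ Q := Equiv.ofBijective _ hbij
  have hE : ∀ g, E g = a g q := fun g => rfl
  let f : G → G := fun g => E.symm (op q (E g))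
  have hf1 : ∀ g, E (f g) = op q (E g) := fun g => by simp [f]
  refine ⟨f, ?_, ?_⟩
  · have : f = E.symm ∘ (fun x => op q x) ∘ E := rfl
    rw [this]
    exact E.symm.bijective.comp ((hQ.1 q).comp E.bijective)
  · -- `E (g⁻¹ f(g)) = g⁻¹ (q · g q) = (g⁻¹ q) · q`
    have h1 : ∀ g, E (g⁻¹ * f g) = op (E g⁻¹) q := by
      intro g
      rw [hE, ha, ← hE (f g), hf1, haop, hE g, ← ha, inv_mul_cancel, ha1, hE]
    have : (fun g => g⁻¹ * f g) = E.symm ∘ (fun x => op x q) ∘ E ∘ (fun g => g⁻¹) := by
      ext g
      simp [← h1]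
    rw [this]
    exact E.symm.bijective.comp ((hQ.2 q).comp (E.bijective.comp inv_involutive.bijective))

/-- A finite group has a regular representation by a quasigroup iff it has an orthomorphism. -/
theorem hasRegularRep_iff {G : Type u} [Group G] [Finite G] :
    HasRegularRep G ↔ ∃ f : G → G, IsOrth f := by
  refine ⟨exists_orth_of_hasRegularRep, fun h => ?_⟩
  obtain ⟨f, hf, hinv⟩ := exists_no_invariant h
  exact hasRegularRep_of_no_invariant hf hinv

/-- complete mappings and orthomorphisms -/
theorem exists_orth_iff_complete {G : Type u} [Group G] :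
    (∃ f : G → G, IsOrth f) ↔
      ∃ θ : G → G, Function.Bijective θ ∧ Function.Bijective (fun x => x * θ x) := by
  constructor
  · rintro ⟨f, h1, h2⟩
    exact ⟨fun x => x⁻¹ * f x, h2, by simpa using h1⟩
  · rintro ⟨θ, h1, h2⟩
    exact ⟨fun x => x * θ x, h2, by simpa using h1⟩

end Pool.Agent.Lib_MP_8306f4_co
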