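import Pool.Agent.Lib_MP_8306f4_co.Main

/-!
Finite groups with a 2-complement, in particular finite solvable groups: a regular representation
by a quasigroup exists if and only if the Sylow 2-subgroups are trivial or noncyclic.
-/

namespace Pool.Agent.Results.MP_8306f4_co.RegularIff

open MP8306f4

universe u

theorem result {G : Type u} [Group G] [Finite G]
    (hG : Group.IsSolvable G ∨ ∃ (K : Subgroup G) (k : ℕ), Odd (Nat.card K) ∧ K.index = 2 ^ k) :
    AdmitsRegular G ↔ ∀ S : Sylow 2 G, IsCyclic S → Nat.card S = 1 := by
  constructor
  · intro h S hS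
    exact card_sylow_of_admitsRegular h S hS
  · intro h
    obtain ⟨S⟩ : Nonempty (Sylow 2 G) := inferInstance
    have hcomp : ∃ K : Subgroup G, Odd (Nat.card K) ∧
        Subgroup.IsComplement' K (S : Subgroup G) := by
      rcases hG with hs | ⟨K, k, hK, hk⟩
      · exact exists_odd_complement S
      · exact ⟨K, hK, isComplement_of_index S K hK hk⟩
    obtain ⟨K, hK, hKS⟩ := hcomp
    exact admitsRegular_of_rigid (rigid_of_complement S K hK hKS (h S))

end Pool.Agent.Results.MP_8306f4_co.RegularIff
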