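import Pool.Agent.Lib_MP_8306f4_co.Ext

/-!
Rigid orthomorphisms of noncyclic 2-groups.
-/

namespace MP8306f4

universe u v

theorem exists_orth_of_param {G : Type u} [Group G] {ι : Type v} (E T U : ι → G)
    (hE : Function.Bijective E) (hT : Function.Bijective T) (hU : Function.Bijective U)
    (h : ∀ i, (E i)⁻¹ * T i = U i) : ∃ f : G → G, IsOrth f ∧ ∀ i, f (E i) = T i := by
  let e := Equiv.ofBijective E hE
  refine ⟨fun x => T (e.symm x), ⟨hT.comp e.symm.bijective, ?_⟩, ?_⟩
  · have : (fun x => x⁻¹ * T (e.symm x)) = U ∘ e.symm := by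
      ext x
      simp only [Function.comp_apply]
      rw [← h (e.symm x)]
      congr 2
      exact (e.apply_symm_apply x).symm
    rw [this]
    exact hU.comp e.symm.bijective
  · intro i
    have : e.symm (E i) = i := e.symm_apply_apply i
    simp only [this]

theorem rigid_of_presentation {G : Type u} [Group G] [Finite G] (a b : G) (h : ℕ) (hh : 0 < h)
    (s e : ℤ) (hs : Odd s) (he : Even e) (hcop : IsCoprime (2 - s) ((2 * h : ℕ) : ℤ))
    (ha : orderOf a = 2 * h) (hba : b * a = a ^ s * b) (hbb : b * b = a ^ e)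
    (hcard : Nat.card G = 2 * (2 * h)) (hb : ∀ i : ℤ, b ≠ a ^ i) : Rigid G := by
  classical
  -- basic computation rules
  have hbz : ∀ i : ℤ, b * a ^ i = a ^ (s * i) * b := by
    intro i
    have h1 : b * a ^ i * b⁻¹ = (b * a * b⁻¹) ^ i := (conj_zpow).symm
    have h2 : b * a * b⁻¹ = a ^ s := by rw [hba]; simp
    have h3 : b * a ^ i * b⁻¹ = a ^ (s * i) := by rw [h1, h2, zpow_mul]
    rw [← h3]; simp
  have hinj : ∀ x y : ℤ, a ^ x = a ^ y → |x - y| < 2 * h → x = y := by
    intro x y hxy hlt
    rw [zpow_eq_zpow_iff_modEq, ha] at hxy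
    have h1 : ((2 * h : ℕ) : ℤ) ∣ x - y := (Int.modEq_iff_dvd.mp hxy.symm)
    have h2 := Int.eq_zero_of_abs_lt_dvd h1 (by push_cast; exact hlt)
    omega
  have hpar : ∀ x y : ℤ, a ^ x = a ^ y → (2 : ℤ) ∣ x - y := by
    intro x y hxy
    rw [zpow_eq_zpow_iff_modEq, ha] at hxy
    have h1 : ((2 * h : ℕ) : ℤ) ∣ x - y := (Int.modEq_iff_dvd.mp hxy.symm)
    exact dvd_trans ⟨(h : ℤ), by push_cast; ring⟩ h1
  have hne : ∀ x y : ℤ, a ^ x ≠ a ^ y * b := by
    intro x y hxy
    apply hb (-y + x)
    rw [zpow_add, hxy, zpow_neg]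
    simp
  have hne' : ∀ x y : ℤ, a ^ y * b ≠ a ^ x := fun x y hxy => hne x y hxy.symm
  obtain ⟨s', hs'⟩ := hs
  obtain ⟨e', he'⟩ := he
  let ι := Fin (2 * h) × Bool
  let E : ι → G := fun p => if p.2 then a ^ ((2 - s) * (p.1 : ℤ)) * b else a ^ (p.1 : ℤ)
  let T : ι → G := fun p => if p.2 then
      (if (p.1 : ℕ) < h then a ^ (2 * (p.1 : ℤ) + e + s) else a ^ (2 * (p.1 : ℤ)) * b)
    else (if (p.1 : ℕ) < h then a ^ (2 * (p.1 : ℤ)) else a ^ (2 * (p.1 : ℤ) + 1) * b)
  let U : ι → G := fun p => if p.2 then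
      (if (p.1 : ℕ) < h then a ^ ((p.1 : ℤ) + 1) * b else a ^ (p.1 : ℤ))
    else (if (p.1 : ℕ) < h then a ^ (p.1 : ℤ) else a ^ ((p.1 : ℤ) + 1) * b)
  have hcardι : Nat.card ι = Nat.card G := by
    rw [hcard]
    have h1 : Nat.card ι = Nat.card (Fin (2 * h)) * Nat.card Bool := Nat.card_prod _ _
    rw [h1, Nat.card_fin, Nat.card_eq_fintype_card (α := Bool), Fintype.card_bool]
    ring
  have hbij : ∀ F : ι → G, Function.Injective F → Function.Bijective F := by
    intro F hF
    exact (Nat.bijective_iff_injective_and_card F).mpr ⟨hF, hcardι⟩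
  have hE : Function.Bijective E := by
    apply hbij
    rintro ⟨⟨i, hi⟩, c⟩ ⟨⟨j, hj⟩, d⟩ hij
    simp only [E] at hij
    cases c <;> cases d <;> simp only [if_true, if_false, Bool.false_eq_true] at hij
    · have := hinj _ _ hij (by rw [abs_lt]; omega)
      have hij' : i = j := by omega
      subst hij'; rfl
    · exact absurd hij (hne _ _)
    · exact absurd hij (hne' _ _)
    · have h1 := mul_right_cancel hij
      rw [zpow_eq_zpow_iff_modEq, ha] at h1
      have h2 : ((2 * h : ℕ) : ℤ) ∣ (2 - s) * i - (2 - s) * j := Int.modEq_iff_dvd.mp h1.symm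
      rw [← mul_sub] at h2
      have h3 := IsCoprime.dvd_of_dvd_mul_left hcop.symm h2
      have h4 := Int.eq_zero_of_abs_lt_dvd h3 (by rw [abs_lt]; push_cast; omega)
      have hij' : i = j := by omega
      subst hij'; rfl
  have hT : Function.Bijective T := by
    apply hbij
    rintro ⟨⟨i, hi⟩, c⟩ ⟨⟨j, hj⟩, d⟩ hij
    simp only [T] at hij
    cases c <;> cases d <;> simp only [if_true, if_false, Bool.false_eq_true] at hij <;>
      split_ifs at hij with h1 h2 h2
    · have := hinj _ _ hij (by rw [abs_lt]; omega)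
      have hij' : i = j := by omega
      subst hij'; rfl
    · exact absurd hij (hne _ _)
    · exact absurd hij (hne' _ _)
    · have := hinj _ _ (mul_right_cancel hij) (by rw [abs_lt]; omega)
      have hij' : i = j := by omega
      subst hij'; rfl
    · have := hpar _ _ hij
      omega
    · exact absurd hij (hne _ _)
    · exact absurd hij (hne' _ _)
    · have := hpar _ _ (mul_right_cancel hij)
      omega
    · have := hpar _ _ hij
      omega
    · exact absurd hij (hne _ _)
    · exact absurd hij (hne' _ _)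
    · have := hpar _ _ (mul_right_cancel hij)
      omega
    · have := hinj _ _ hij (by rw [abs_lt]; omega)
      have hij' : i = j := by omega
      subst hij'; rfl
    · exact absurd hij (hne _ _)
    · exact absurd hij (hne' _ _)
    · have := hinj _ _ (mul_right_cancel hij) (by rw [abs_lt]; omega)
      have hij' : i = j := by omega
      subst hij'; rfl
  have hU : Function.Bijective U := by
    apply hbij
    rintro ⟨⟨i, hi⟩, c⟩ ⟨⟨j, hj⟩, d⟩ hij
    simp only [U] at hij
    cases c <;> cases d <;> simp only [if_true, if_false, Bool.false_eq_true] at hij <;>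
      split_ifs at hij with h1 h2 h2
    · have := hinj _ _ hij (by rw [abs_lt]; omega)
      have hij' : i = j := by omega
      subst hij'; rfl
    · exact absurd hij (hne _ _)
    · exact absurd hij (hne' _ _)
    · have := hinj _ _ (mul_right_cancel hij) (by rw [abs_lt]; omega)
      have hij' : i = j := by omega
      subst hij'; rfl
    · exact absurd hij (hne _ _)
    · have := hinj _ _ hij (by rw [abs_lt]; omega)
      omega
    · have := hinj _ _ (mul_right_cancel hij) (by rw [abs_lt]; omega)
      omega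
    · exact absurd hij (hne' _ _)
    · exact absurd hij (hne' _ _)
    · have := hinj _ _ (mul_right_cancel hij) (by rw [abs_lt]; omega)
      omega
    · have := hinj _ _ hij (by rw [abs_lt]; omega)
      omega
    · exact absurd hij (hne _ _)
    · have := hinj _ _ (mul_right_cancel hij) (by rw [abs_lt]; omega)
      have hij' : i = j := by omega
      subst hij'; rfl
    · exact absurd hij (hne' _ _)
    · exact absurd hij (hne _ _)
    · have := hinj _ _ hij (by rw [abs_lt]; omega)
      have hij' : i = j := by omega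
      subst hij'; rfl
  have hET : ∀ p, (E p)⁻¹ * T p = U p := by
    rintro ⟨⟨i, hi⟩, c⟩
    simp only [E, T, U]
    cases c <;> simp only [if_true, if_false, Bool.false_eq_true] <;> split_ifs with h1
    · rw [← zpow_neg, ← zpow_add]; congr 1; ring
    · rw [← zpow_neg, ← mul_assoc, ← zpow_add]; congr 2; ring
    · -- b⁻¹ a^{-(2-s)i} a^{2i+e+s} = a^{i+1} b
      rw [inv_mul_eq_iff_eq_mul]
      -- a^{2i+e+s} = a^{(2-s)i} b a^{i+1} b
      rw [mul_assoc, ← mul_assoc b, hbz, mul_assoc, hbb, ← zpow_add, ← zpow_add]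
      congr 1; ring
    · rw [inv_mul_eq_iff_eq_mul, mul_assoc, hbz, ← mul_assoc, ← zpow_add]
      congr 2; ring
  obtain ⟨f, hf, hfE⟩ := exists_orth_of_param E T U hE hT hU hET
  refine ⟨fun x => f x * a, ⟨?_, ?_⟩, ?_⟩
  · exact (Equiv.mulRight a).bijective.comp hf.1
  · have : (fun x => x⁻¹ * (f x * a)) = (Equiv.mulRight a) ∘ (fun x => x⁻¹ * f x) := by
      ext x; simp [mul_assoc]
    rw [this]
    exact (Equiv.mulRight a).bijective.comp hf.2
  · intro D hD
    have haD : a ∈ D := by
      have h1 : f 1 * a ∈ D := hD 1 D.one_mem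
      have h2 : f 1 = 1 := by
        have h3 := hfE (⟨0, by omega⟩, false)
        simpa [E, T, hh] using h3
      rw [h2, one_mul] at h1
      exact h1
    have hbD : b ∈ D := by
      have h1 : a ^ (h : ℤ) ∈ D := D.zpow_mem haD _
      have h2 : f (a ^ (h : ℤ)) * a ∈ D := hD _ h1
      have h3 : f (a ^ (h : ℤ)) = a ^ (2 * (h : ℤ) + 1) * b := by
        have h3 := hfE (⟨h, by omega⟩, false)
        simpa [E, T] using h3
      rw [h3] at h2
      have h4 := (Subgroup.mul_mem_cancel_right D haD).mp h2
      exact (Subgroup.mul_mem_cancel_left D (D.zpow_mem haD _)).mp h4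
    rw [eq_top_iff]
    intro x _
    obtain ⟨⟨i, c⟩, rfl⟩ := hE.2 x
    simp only [E]
    cases c <;> simp only [if_true, if_false, Bool.false_eq_true]
    · exact D.zpow_mem haD _
    · exact D.mul_mem (D.zpow_mem haD _) hbD

end MP8306f4
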